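import Pool.Agent.E8helper38.KV.Series

/-!
# The fixed locus and the pole of the trace series at `1`
-/

set_option autoImplicit false

namespace Pool.Agent.E8helper38.KV

open LinearMap Module DirectSum

variable {k : Type*} [Field k] {R : Type*} [CommRing R] [Algebra k R]

/-- The locus of the points of `Proj R` which are fixed by the graded automorphism `g`, together with
its action on the fibres of `O(1)`, has dimension at most `f`: the quotient of `R` by the ideal
generated by the elements `g x - x` is finite dimensional after division by `f + 1` suitable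
homogeneous elements of positive degrees. -/
def FixDimLE (𝒜 : ℕ → Submodule k R) (g : R ≃ₐ[k] R) (f : ℕ) : Prop :=
  ∃ (y : Fin (f + 1) → R) (e : Fin (f + 1) → ℕ), (∀ i, 0 < e i ∧ y i ∈ 𝒜 (e i)) ∧
    ∃ K : ℕ, ∀ m, K ≤ m → ∀ x ∈ 𝒜 m,
      x ∈ Ideal.span (Set.range fun x => g x - x) ⊔ Ideal.span (Set.range y)

section
variable (𝒜 : ℕ → Submodule k R) [GradedAlgebra 𝒜] (g : R ≃ₐ[k] R)

theorem pow_sub_mem (y : R) (n : ℕ) :
    (g ^ n) y - y ∈ Ideal.span (Set.range fun x => g x - x) := by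
  induction n with
  | zero => simp
  | succ n ih =>
    have h1 : (g ^ (n + 1)) y - y = (g ((g ^ n) y) - (g ^ n) y) + ((g ^ n) y - y) := by
      rw [pow_succ']
      simp
    rw [h1]
    exact Ideal.add_mem _ (Ideal.subset_span ⟨_, rfl⟩) ih

theorem pow_mem (hg : ∀ m, ∀ x ∈ 𝒜 m, g x ∈ 𝒜 m) (n m : ℕ) : ∀ x ∈ 𝒜 m, (g ^ n) x ∈ 𝒜 m := by
  induction n with
  | zero => intro x hx; simpa using hx
  | succ n ih =>
    intro x hx
    rw [pow_succ']
    exact hg m _ (ih x hx)

theorem eig_span [IsAlgClosed k] [CharZero k] [∀ m, FiniteDimensional k (𝒜 m)] {d : ℕ}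
    (hd : 0 < d) (hgd : g ^ d = 1) (hg : ∀ m, ∀ x ∈ 𝒜 m, g x ∈ 𝒜 m) (x : R) :
    g x - x ∈ Ideal.span {z : R | ∃ (w : ℕ) (χ : k), z ∈ 𝒜 w ∧ g z = χ • z ∧ χ ≠ 1 ∧ χ ≠ 0} := by
  classical
  have hom : ∀ w, ∀ x ∈ 𝒜 w, g x - x ∈
      Ideal.span {z : R | ∃ (w : ℕ) (χ : k), z ∈ 𝒜 w ∧ g z = χ • z ∧ χ ≠ 1 ∧ χ ≠ 0} := by
    intro w x hx
    let G : Module.End k (𝒜 w) := g.toLinearMap.restrict (hg w)
    have hG : ∀ y : 𝒜 w, ((G y : 𝒜 w) : R) = g y := fun y => rfl
    have hGn : ∀ n : ℕ, ∀ y : 𝒜 w, (((G ^ n) y : 𝒜 w) : R) = (g ^ n) (y : R) := by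
      intro n
      induction n with
      | zero => intro y; simp
      | succ n ih =>
        intro y
        rw [pow_succ', pow_succ', Module.End.mul_apply, hG, ih]
        rfl
    have hss : G.IsSemisimple := by
      apply Module.End.isSemisimple_of_squarefree_aeval_eq_zero
        (p := (Polynomial.X ^ d - 1 : Polynomial k))
      · apply Polynomial.Separable.squarefree
        rw [Polynomial.X_pow_sub_one_separable_iff]
        exact Nat.cast_ne_zero.2 hd.ne'
      · apply LinearMap.ext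
        intro y
        rw [map_sub, map_pow, Polynomial.aeval_X, map_one, LinearMap.sub_apply,
          Module.End.one_apply, LinearMap.zero_apply, sub_eq_zero]
        apply Subtype.ext
        rw [hGn, hgd]
        rfl
    have htop := hss.iSup_eigenspace_eq_top
    have hx' : (⟨x, hx⟩ : 𝒜 w) ∈ ⨆ μ, G.eigenspace μ := by rw [htop]; trivial
    have key : ∀ y ∈ ⨆ μ, G.eigenspace μ, g (y : R) - (y : R) ∈
        Ideal.span {z : R | ∃ (w : ℕ) (χ : k), z ∈ 𝒜 w ∧ g z = χ • z ∧ χ ≠ 1 ∧ χ ≠ 0} := by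
      intro y hy
      induction hy using Submodule.iSup_induction' with
      | mem μ y hy =>
        rw [Module.End.mem_eigenspace_iff] at hy
        have hy' : g (y : R) = μ • (y : R) := congrArg Subtype.val hy
        by_cases h1 : μ = 1
        · rw [hy', h1, one_smul, sub_self]
          exact Ideal.zero_mem _
        by_cases h0 : μ = 0
        · rw [h0, zero_smul] at hy'
          have : (y : R) = 0 := g.injective (by rw [hy', map_zero])
          rw [this, map_zero, sub_self]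
          exact Ideal.zero_mem _
        · have hmem : (y : R) ∈ Ideal.span {z : R | ∃ (w : ℕ) (χ : k), z ∈ 𝒜 w ∧
              g z = χ • z ∧ χ ≠ 1 ∧ χ ≠ 0} :=
            Ideal.subset_span ⟨w, μ, y.2, hy', h1, h0⟩
          rw [hy', Algebra.smul_def]
          exact Ideal.sub_mem _ (Ideal.mul_mem_left _ _ hmem) hmem
      | zero => simp
      | add a b _ _ ha hb =>
        rw [Submodule.coe_add, map_add, add_sub_add_comm]
        exact Ideal.add_mem _ ha hb
    exact key _ hx'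
  have h1 : g x - x = ∑ i ∈ (decompose 𝒜 x).support,
      (g (decompose 𝒜 x i : R) - (decompose 𝒜 x i : R)) := by
    rw [Finset.sum_sub_distrib, ← map_sum, DirectSum.sum_support_decompose 𝒜 x]
  rw [h1]
  exact Ideal.sum_mem _ fun i _ => hom i _ (decompose 𝒜 x i).2

/-- a finite list of homogeneous eigenvectors, at most `f + 1` of them invariant, which generates an
ideal of finite codimension -/
theorem exists_list [IsAlgClosed k] [CharZero k] [∀ m, FiniteDimensional k (𝒜 m)]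
    [IsNoetherianRing R] {d : ℕ}
    (hd : 0 < d) (hgd : g ^ d = 1) (hg : ∀ m, ∀ x ∈ 𝒜 m, g x ∈ 𝒜 m) {f : ℕ}
    (hf : FixDimLE 𝒜 g f) : ∃ l : List (R × ℕ × k),
      (∀ t ∈ l, t.1 ∈ 𝒜 t.2.1 ∧ g t.1 = t.2.2 • t.1 ∧ t.2.2 ≠ 0) ∧
      (∀ t ∈ l, t.2.2 = 1 → 0 < t.2.1) ∧
      (∃ l₁ l₂ : List (R × ℕ × k), l = l₁ ++ l₂ ∧ (∀ t ∈ l₁, t.2.2 ≠ 1) ∧ l₂.length = f + 1) ∧
      ∃ K : ℕ, ∀ m, K ≤ m → ∀ x ∈ 𝒜 m, x ∈ Ideal.span {z | z ∈ l.map Prod.fst} := by
  classical
  obtain ⟨y, e, hy, K, hK⟩ := hf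
  set E : Set R := {z : R | ∃ (w : ℕ) (χ : k), z ∈ 𝒜 w ∧ g z = χ • z ∧ χ ≠ 1 ∧ χ ≠ 0} with hE
  have hJE : Ideal.span (Set.range fun x => g x - x) ≤ Ideal.span E := by
    rw [Ideal.span_le]
    rintro _ ⟨x, rfl⟩
    exact eig_span 𝒜 g hd hgd hg x
  obtain ⟨F, hFE, hF⟩ := (Submodule.fg_span_iff_fg_span_finset_subset E).1
    (IsNoetherian.noetherian (Ideal.span E))
  have hch : ∀ z : F, ∃ t : R × ℕ × k, t.1 = z ∧ t.1 ∈ 𝒜 t.2.1 ∧ g t.1 = t.2.2 • t.1 ∧
      t.2.2 ≠ 1 ∧ t.2.2 ≠ 0 := by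
    rintro ⟨z, hz⟩
    obtain ⟨w, χ, h1, h2, h3, h4⟩ := hFE hz
    exact ⟨(z, w, χ), rfl, h1, h2, h3, h4⟩
  choose τ hτ using hch
  have hdk : (d : k) ≠ 0 := Nat.cast_ne_zero.2 hd.ne'
  let av : R → R := fun x => (d : k)⁻¹ • ∑ i ∈ Finset.range d, (g ^ i) x
  have hav : ∀ x, g (av x) = av x := by
    intro x
    simp only [av]
    rw [map_smul, map_sum]
    congr 1
    have h1 : ∑ i ∈ Finset.range d, g ((g ^ i) x) = ∑ i ∈ Finset.range d, (g ^ (i + 1)) x := by
      refine Finset.sum_congr rfl fun i _ => ?_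
      rw [pow_succ']; rfl
    rw [h1]
    have h2 := Finset.sum_range_succ' (fun i => (g ^ i) x) d
    have h3 := Finset.sum_range_succ (fun i => (g ^ i) x) d
    rw [h3, hgd] at h2
    simpa using h2.symm
  have hav2 : ∀ x, av x - x ∈ Ideal.span (Set.range fun x => g x - x) := by
    intro x
    have h1 : av x - x = (d : k)⁻¹ • ∑ i ∈ Finset.range d, ((g ^ i) x - x) := by
      rw [Finset.sum_sub_distrib, Finset.sum_const, Finset.card_range, smul_sub,
        ← Nat.cast_smul_eq_nsmul k, smul_smul, inv_mul_cancel₀ hdk, one_smul]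
    rw [h1, Algebra.smul_def]
    exact Ideal.mul_mem_left _ _ (Ideal.sum_mem _ fun i _ => pow_sub_mem g x i)
  have hav3 : ∀ m, ∀ x ∈ 𝒜 m, av x ∈ 𝒜 m := fun m x hx =>
    Submodule.smul_mem _ _ (Submodule.sum_mem _ fun i _ => pow_mem 𝒜 g hg i m x hx)
  let l₁ : List (R × ℕ × k) := (Finset.univ : Finset F).toList.map τ
  let l₂ : List (R × ℕ × k) := List.ofFn fun i => (av (y i), e i, (1 : k))
  refine ⟨l₁ ++ l₂, ?_, ?_, ⟨l₁, l₂, rfl, ?_, by simp [l₂]⟩, K, ?_⟩
  · intro t ht
    rw [List.mem_append] at ht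
    rcases ht with ht | ht
    · obtain ⟨z, -, rfl⟩ := List.mem_map.1 ht
      obtain ⟨-, h1, h2, -, h4⟩ := hτ z
      exact ⟨h1, h2, h4⟩
    · obtain ⟨i, rfl⟩ := (List.mem_ofFn' _ _).1 ht
      exact ⟨hav3 _ _ (hy i).2, by simp [hav], one_ne_zero⟩
  · intro t ht h1
    rw [List.mem_append] at ht
    rcases ht with ht | ht
    · obtain ⟨z, -, rfl⟩ := List.mem_map.1 ht
      exact absurd h1 (hτ z).2.2.2.1
    · obtain ⟨i, rfl⟩ := (List.mem_ofFn' _ _).1 ht
      exact (hy i).1
  · intro t ht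
    obtain ⟨z, -, rfl⟩ := List.mem_map.1 ht
    exact (hτ z).2.2.2.1
  · intro m hm x hx
    have h1 := hK m hm x hx
    set I := Ideal.span {z | z ∈ (l₁ ++ l₂).map Prod.fst} with hI
    have hEI : Ideal.span E ≤ I := by
      have h2 : Ideal.span E = Ideal.span (F : Set R) := hF
      rw [h2, Ideal.span_le]
      intro z hz
      apply Ideal.subset_span
      show z ∈ (l₁ ++ l₂).map Prod.fst
      rw [List.map_append, List.mem_append]
      left
      rw [List.mem_map]
      refine ⟨τ ⟨z, hz⟩, List.mem_map.2 ⟨⟨z, hz⟩, by simp, rfl⟩, (hτ ⟨z, hz⟩).1⟩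
    have hyI : Ideal.span (Set.range y) ≤ I := by
      rw [Ideal.span_le]
      rintro _ ⟨i, rfl⟩
      have h3 : av (y i) ∈ I := by
        apply Ideal.subset_span
        show av (y i) ∈ (l₁ ++ l₂).map Prod.fst
        rw [List.map_append, List.mem_append]
        right
        rw [List.mem_map]
        exact ⟨_, (List.mem_ofFn' _ _).2 ⟨i, rfl⟩, rfl⟩
      have h4 := hEI (hJE (hav2 (y i)))
      have h5 : y i = av (y i) - (av (y i) - y i) := by ring
      rw [SetLike.mem_coe, h5]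
      exact Ideal.sub_mem _ h3 h4
    exact (sup_le (hJE.trans hEI) hyI) h1

end

section poly
variable [CharZero k]

theorem rm_one_le {w : ℕ} (hw : 0 < w) :
    (1 - Polynomial.C (1 : k) * Polynomial.X ^ w : Polynomial k) ≠ 0 ∧
    Polynomial.rootMultiplicity 1 (1 - Polynomial.C (1 : k) * Polynomial.X ^ w) ≤ 1 := by
  have h1 : (1 - Polynomial.C (1 : k) * Polynomial.X ^ w : Polynomial k) =
      -(Polynomial.X ^ w - 1) := by rw [map_one, one_mul, neg_sub]
  have h2 : (Polynomial.X ^ w - 1 : Polynomial k).Separable := by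
    rw [Polynomial.X_pow_sub_one_separable_iff]
    exact Nat.cast_ne_zero.2 hw.ne'
  rw [h1]
  constructor
  · rw [neg_ne_zero]
    exact h2.ne_zero
  · have h3 : (-(Polynomial.X ^ w - 1) : Polynomial k).Separable := by
      have := Polynomial.Separable.unit_mul (f := (-1 : Polynomial k)) isUnit_one.neg h2
      rwa [neg_one_mul] at this
    exact Polynomial.rootMultiplicity_le_one_of_separable h3 1

omit [CharZero k] in
theorem rm_zero {w : ℕ} {χ : k} (hχ : χ ≠ 1) :
    (1 - Polynomial.C χ * Polynomial.X ^ w : Polynomial k) ≠ 0 ∧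
    Polynomial.rootMultiplicity 1 (1 - Polynomial.C χ * Polynomial.X ^ w) = 0 := by
  have h1 : Polynomial.eval 1 (1 - Polynomial.C χ * Polynomial.X ^ w : Polynomial k) ≠ 0 := by
    simp only [Polynomial.eval_sub, Polynomial.eval_one, Polynomial.eval_mul,
      Polynomial.eval_C, Polynomial.eval_pow, Polynomial.eval_X, one_pow, mul_one]
    exact sub_ne_zero.2 (Ne.symm hχ)
  constructor
  · intro h0
    rw [h0] at h1
    exact h1 Polynomial.eval_zero
  · exact Polynomial.rootMultiplicity_eq_zero h1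

omit [CommRing R] [Algebra k R] in
theorem den_rm (l : List (R × ℕ × k)) (hl : ∀ t ∈ l, t.2.2 = 1 → 0 < t.2.1) :
    den l ≠ 0 ∧ Polynomial.rootMultiplicity 1 (den l) ≤ l.length := by
  induction l with
  | nil => simp [den]
  | cons t l ih =>
    obtain ⟨h0, h1⟩ := ih fun t ht => hl t (by simp [ht])
    have h2 : (1 - Polynomial.C t.2.2 * Polynomial.X ^ t.2.1 : Polynomial k) ≠ 0 ∧
        Polynomial.rootMultiplicity 1 (1 - Polynomial.C t.2.2 * Polynomial.X ^ t.2.1) ≤ 1 := by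
      by_cases h : t.2.2 = 1
      · rw [h]
        exact rm_one_le (hl t (by simp) h)
      · obtain ⟨h3, h4⟩ := rm_zero (w := t.2.1) h
        exact ⟨h3, by omega⟩
    have h5 : den (t :: l) = (1 - Polynomial.C t.2.2 * Polynomial.X ^ t.2.1) * den l := by
      rw [den, List.map_cons, List.prod_cons, ← den]
    rw [h5]
    refine ⟨mul_ne_zero h2.1 h0, ?_⟩
    rw [Polynomial.rootMultiplicity_mul (mul_ne_zero h2.1 h0), List.length_cons]
    have := h2.2
    omega

omit [CharZero k] [CommRing R] [Algebra k R] in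
theorem den_rm0 (l : List (R × ℕ × k)) (hl : ∀ t ∈ l, t.2.2 ≠ 1) :
    den l ≠ 0 ∧ Polynomial.rootMultiplicity 1 (den l) = 0 := by
  induction l with
  | nil => simp [den]
  | cons t l ih =>
    obtain ⟨h0, h1⟩ := ih fun t ht => hl t (by simp [ht])
    have h2 := rm_zero (w := t.2.1) (hl t (by simp))
    have h5 : den (t :: l) = (1 - Polynomial.C t.2.2 * Polynomial.X ^ t.2.1) * den l := by
      rw [den, List.map_cons, List.prod_cons, ← den]
    rw [h5]
    refine ⟨mul_ne_zero h2.1 h0, ?_⟩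
    rw [Polynomial.rootMultiplicity_mul (mul_ne_zero h2.1 h0), h2.2, h1]

omit [CharZero k] [CommRing R] [Algebra k R] in
theorem den_append (l₁ l₂ : List (R × ℕ × k)) : den (l₁ ++ l₂) = den l₁ * den l₂ := by
  rw [den, List.map_append, List.prod_append, ← den, ← den]

omit [CharZero k] in
/-- the only pole of the series is at `1`, and it has order at most `a` -/
theorem denom_one [IsAlgClosed k] {F : PowerSeries k} {D₁ D₂ D₃ : Polynomial k} {a p q : ℕ}
    (h1 : D₁ ∈ denom F) (h2 : D₂ ∈ denom F) (h3 : D₃ ∈ denom F) (h0 : D₁ ≠ 0)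
    (ha : Polynomial.rootMultiplicity 1 D₁ ≤ a)
    (hp : ∀ ζ, D₂.IsRoot ζ → ζ ^ p = 1) (hq : ∀ ζ, D₃.IsRoot ζ → ζ ^ q = 1)
    (hpq : p.Coprime q) : (1 - Polynomial.X : Polynomial k) ^ a ∈ denom F := by
  classical
  obtain ⟨D, hD⟩ := (inferInstance : (denom F).IsPrincipal)
  have hmem : ∀ P, P ∈ denom F ↔ D ∣ P := by
    intro P
    rw [hD]
    exact Ideal.mem_span_singleton
  have hD1 := (hmem _).1 h1
  have hD0 : D ≠ 0 := fun h => h0 (by rw [h] at hD1; exact zero_dvd_iff.1 hD1)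
  have hroots : ∀ ζ ∈ D.roots, ζ = 1 := by
    intro ζ hζ
    have hr : D.IsRoot ζ := Polynomial.isRoot_of_mem_roots hζ
    have e1 := hp ζ (hr.dvd ((hmem _).1 h2))
    have e2 := hq ζ (hr.dvd ((hmem _).1 h3))
    have e3 := Nat.dvd_gcd (orderOf_dvd_of_pow_eq_one e1) (orderOf_dvd_of_pow_eq_one e2)
    rw [hpq.gcd_eq_one, Nat.dvd_one] at e3
    exact orderOf_eq_one_iff.1 e3
  have hrep : D.roots = Multiset.replicate (Multiset.card D.roots) 1 :=
    Multiset.eq_replicate.2 ⟨rfl, hroots⟩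
  have hsplit := (IsAlgClosed.splits D).eq_prod_roots
  have hcard : Multiset.card D.roots ≤ a := by
    have e1 : Polynomial.rootMultiplicity 1 D = Multiset.card D.roots := by
      rw [← Polynomial.count_roots, hrep, Multiset.count_replicate_self, Multiset.card_replicate]
    rw [← e1]
    exact le_trans (Polynomial.rootMultiplicity_le_rootMultiplicity_of_dvd h0 hD1 1) ha
  rw [hmem, hsplit, hrep, Multiset.map_replicate, Multiset.prod_replicate]
  have hl : IsUnit (Polynomial.C D.leadingCoeff) := by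
    rw [Polynomial.isUnit_C]
    exact (Polynomial.leadingCoeff_ne_zero.2 hD0).isUnit
  rw [hl.mul_left_dvd]
  have e2 : (1 - Polynomial.X : Polynomial k) = -(Polynomial.X - Polynomial.C 1) := by
    rw [map_one, neg_sub]
  rw [e2, neg_pow]
  exact Dvd.dvd.mul_left (pow_dvd_pow _ hcard) _

end poly

end Pool.Agent.E8helper38.KV
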