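import Pool.Agent.E8helper38.KV.Inv

/-!
# Gorenstein graded rings: symmetry of the Hilbert function
-/

set_option autoImplicit false

namespace Pool.Agent.E8helper38.KV

open LinearMap Module DirectSum

/-- `B = ⨁ ℬ m` is a graded Gorenstein ring of dimension `n + 1` with `a`-invariant `-r`: there is a
regular sequence `θ_0, …, θ_n` of homogeneous elements of positive degrees `e_0, …, e_n` such that
`B / (θ)` is a graded Artinian Gorenstein ring with socle in the degree `s = ∑ e_i - r`: it vanishes in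
the degrees larger than `s`, has dimension one in the degree `s`, and the multiplication into the
degree `s` is a perfect pairing. -/
def IsGorensteinGraded {k : Type*} [Field k] {B : Type*} [CommRing B] [Algebra k B]
    (ℬ : ℕ → Submodule k B) (n r : ℕ) : Prop :=
  ∃ (θ : Fin (n + 1) → B) (e : Fin (n + 1) → ℕ) (s : ℕ),
    (∀ i, 0 < e i ∧ θ i ∈ ℬ (e i)) ∧
    (∀ i x, θ i * x ∈ Ideal.span (θ '' {j | j < i}) → x ∈ Ideal.span (θ '' {j | j < i})) ∧
    s + r = ∑ i, e i ∧
    (∀ m, s < m → ∀ x ∈ ℬ m, x ∈ Ideal.span (Set.range θ)) ∧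
    finrank k (ℬ s) =
      finrank k ↥((Ideal.span (Set.range θ)).restrictScalars k ⊓ ℬ s : Submodule k B) + 1 ∧
    ∀ m, m ≤ s → ∀ x ∈ ℬ m, (∀ y ∈ ℬ (s - m), x * y ∈ Ideal.span (Set.range θ)) →
      x ∈ Ideal.span (Set.range θ)

section seq
variable {k : Type*} [Field k]

/-- the difference operator of step `e` on two-sided sequences -/
def del (e : ℕ) (x : ℤ → k) : ℤ → k := fun m => x m - x (m - e)

/-- composition of difference operators -/
def dels (L : List ℕ) (x : ℤ → k) : ℤ → k := L.foldr del x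

@[simp] theorem dels_nil (x : ℤ → k) : dels [] x = x := rfl

@[simp] theorem dels_cons (e : ℕ) (L : List ℕ) (x : ℤ → k) :
    dels (e :: L) x = del e (dels L x) := rfl

theorem del_add (e : ℕ) (x y : ℤ → k) : del e (x + y) = del e x + del e y := by
  funext m; simp only [del, Pi.add_apply]; ring

theorem del_smul (e : ℕ) (c : k) (x : ℤ → k) : del e (c • x) = c • del e x := by
  funext m; simp only [del, Pi.smul_apply, smul_eq_mul]; ring

theorem del_comm (e e' : ℕ) (x : ℤ → k) : del e (del e' x) = del e' (del e x) := by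
  funext m
  simp only [del]
  rw [sub_right_comm m (e : ℤ) (e' : ℤ)]
  ring

theorem dels_add (L : List ℕ) (x y : ℤ → k) : dels L (x + y) = dels L x + dels L y := by
  induction L with
  | nil => rfl
  | cons e L ih => rw [dels_cons, ih, del_add]; rfl

theorem dels_smul (L : List ℕ) (c : k) (x : ℤ → k) : dels L (c • x) = c • dels L x := by
  induction L with
  | nil => rfl
  | cons e L ih => rw [dels_cons, ih, del_smul]; rfl

theorem dels_zero (L : List ℕ) : dels L (0 : ℤ → k) = 0 := by
  have := dels_smul L (0 : k) 0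
  simpa using this

theorem dels_del (L : List ℕ) (e : ℕ) (x : ℤ → k) : dels L (del e x) = del e (dels L x) := by
  induction L with
  | nil => rfl
  | cons e' L ih => rw [dels_cons, dels_cons, ih, del_comm]

theorem dels_comm (L L' : List ℕ) (x : ℤ → k) : dels L (dels L' x) = dels L' (dels L x) := by
  induction L with
  | nil => rfl
  | cons e L ih => rw [dels_cons, dels_cons, ih, dels_del]

/-- reflection -/
def refl (r : ℕ) (x : ℤ → k) : ℤ → k := fun m => x (-r - m)

theorem dels_refl (L : List ℕ) (r : ℕ) (x : ℤ → k) (m : ℤ) :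
    dels L (refl r x) m = (-1) ^ L.length * dels L x (-r - m + L.sum) := by
  induction L generalizing m with
  | nil => simp [refl]
  | cons e L ih =>
    rw [dels_cons, dels_cons, del, ih, ih, del, List.length_cons, List.sum_cons, pow_succ]
    have h1 : (-(r : ℤ) - (m - e) + L.sum) = -r - m + ((e + L.sum : ℕ) : ℤ) := by
      push_cast; ring
    have h2 : (-(r : ℤ) - m + L.sum) = -r - m + ((e + L.sum : ℕ) : ℤ) - e := by
      push_cast; ring
    rw [h1, h2]
    ring

/-- two-sided sequence of a power series -/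
noncomputable def ext (F : PowerSeries k) : ℤ → k := fun m =>
  if 0 ≤ m then PowerSeries.coeff m.toNat F else 0

theorem ext_nat (F : PowerSeries k) (m : ℕ) : ext F m = PowerSeries.coeff m F := by
  simp [ext]

theorem ext_neg (F : PowerSeries k) (m : ℤ) (h : m < 0) : ext F m = 0 := by
  rw [ext, if_neg (by omega)]

theorem ext_mul (F : PowerSeries k) (e : ℕ) :
    ext ((1 - PowerSeries.X ^ e) * F) = del e (ext F) := by
  funext m
  rw [del]
  rcases lt_or_ge m 0 with h | h
  · rw [ext_neg _ _ h, ext_neg _ _ h, ext_neg _ _ (by omega), sub_zero]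
  · obtain ⟨m, rfl⟩ := Int.eq_ofNat_of_zero_le h
    rw [ext_nat, ext_nat, sub_mul, one_mul, map_sub, PowerSeries.coeff_X_pow_mul']
    split_ifs with h1
    · congr 1
      rw [show ((m : ℤ) - e) = ((m - e : ℕ) : ℤ) by omega, ext_nat]
    · rw [ext_neg _ _ (by omega)]

theorem ext_pow (F : PowerSeries k) (a : ℕ) :
    ext ((((1 - Polynomial.X) ^ a : Polynomial k) : PowerSeries k) * F) =
      (del 1)^[a] (ext F) := by
  induction a with
  | zero => simp
  | succ a ih =>
    rw [Function.iterate_succ_apply', ← ih, ← ext_mul, pow_one, pow_succ', Polynomial.coe_mul,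
      Polynomial.coe_sub, Polynomial.coe_one, Polynomial.coe_X, mul_assoc]

theorem del_inj {e : ℕ} (he : 0 < e) {x : ℤ → k} (h : del e x = 0)
    (M : ℤ) (hM : ∀ m, M ≤ m → x m = 0) : x = 0 := by
  have h1 : ∀ m, x (m - e) = x m := by
    intro m
    have := congrFun h m
    simp only [del, Pi.zero_apply] at this
    exact (sub_eq_zero.1 this).symm
  have h2 : ∀ (j : ℕ) (m : ℤ), x m = x (m + j * e) := by
    intro j
    induction j with
    | zero => intro m; simp
    | succ j ih =>
      intro m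
      rw [ih m, ← h1 (m + ((j + 1 : ℕ) : ℤ) * e)]
      congr 1
      push_cast; ring
  funext m
  rw [h2 (M - m).toNat m]
  apply hM
  have h3 : (1 : ℤ) ≤ e := by exact_mod_cast he
  have h4 : M - m ≤ ((M - m).toNat : ℤ) := Int.self_le_toNat _
  have h5 : (0 : ℤ) ≤ ((M - m).toNat : ℤ) := Int.natCast_nonneg _
  nlinarith

theorem dels_ev (L : List ℕ) {x : ℤ → k} (M : ℤ) (hM : ∀ m, M ≤ m → x m = 0) :
    ∀ m, M + L.sum ≤ m → dels L x m = 0 := by
  induction L with
  | nil => intro m hm; simp at hm; exact hM m hm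
  | cons e L ih =>
    intro m hm
    rw [List.sum_cons] at hm
    push_cast at hm
    rw [dels_cons, del, ih m (by push_cast; omega), ih (m - e) (by push_cast; omega), sub_zero]

theorem dels_inj (L : List ℕ) (hL : ∀ e ∈ L, 0 < e) {x : ℤ → k} (h : dels L x = 0)
    (M : ℤ) (hM : ∀ m, M ≤ m → x m = 0) : x = 0 := by
  induction L with
  | nil => exact h
  | cons e L ih =>
    rw [dels_cons] at h
    have h1 := del_inj (hL e (by simp)) h _ (dels_ev L M hM)
    exact ih (fun e he => hL e (by simp [he])) h1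

theorem list_sum (e : ℕ → ℕ) (N : ℕ) :
    ((List.range N).map e).sum = ∑ i ∈ Finset.range N, e i := by
  induction N with
  | zero => simp
  | succ N ih => rw [List.range_succ, List.map_append, List.sum_append, ih,
      Finset.sum_range_succ]; simp

theorem iter_fwdDiff (a : ℕ) (x : ℤ → k) (m : ℤ) :
    (del 1)^[a] x m = (fwdDiff 1)^[a] x (m - a) := by
  induction a generalizing m with
  | zero => simp
  | succ a ih =>
    rw [Function.iterate_succ_apply', Function.iterate_succ_apply', del, fwdDiff, ih, ih]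
    congr 2 <;> (push_cast; ring)

theorem iter_sum (a : ℕ) (x : ℤ → k) (m : ℤ) :
    (del 1)^[a] x m = ∑ j ∈ Finset.range (a + 1), (-1) ^ (a - j) * (a.choose j : k) *
      x (m - a + j) := by
  rw [iter_fwdDiff, fwdDiff_iter_eq_sum_shift]
  refine Finset.sum_congr rfl fun j _ => ?_
  rw [zsmul_eq_mul]
  push_cast
  congr 2
  simp

end seq

section gor
variable {k : Type*} [Field k] {B : Type*} [CommRing B] [Algebra k B] {ℬ : ℕ → Submodule k B}
  [GradedAlgebra ℬ] [hfd : ∀ m, FiniteDimensional k (ℬ m)]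

/-- the Hilbert series with coefficients in `k` -/
noncomputable def hil (ℬ : ℕ → Submodule k B) : PowerSeries k :=
  PowerSeries.mk fun m => (finrank k (ℬ m) : k)

theorem HS_one (N : Ideal B) (m : ℕ) :
    PowerSeries.coeff m (HS ℬ (1 : B ≃ₐ[k] B) N) = (finrank k (pc ℬ N m) : k) := by
  rw [coeff_HS, trOn_eq _ _ (fun x hx => hx)]
  have : (1 : B ≃ₐ[k] B).toLinearMap.restrict (p := pc ℬ N m) (q := pc ℬ N m)
      (fun x hx => hx) = LinearMap.id := by
    ext x; rfl
  rw [this]
  exact trace_id k _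

theorem HS_one_top : HS ℬ (1 : B ≃ₐ[k] B) ⊤ = hil ℬ := by
  ext m
  rw [HS_one, pc_top, hil, PowerSeries.coeff_mk]

/-- the product formula for a regular sequence -/
theorem reg_prod (n : ℕ) (θ : ℕ → B) (e : ℕ → ℕ) (hθ : ∀ i < n, θ i ∈ ℬ (e i))
    (hreg : ∀ i < n, ∀ x, θ i * x ∈ Ideal.span (θ '' {j | j < i}) →
      x ∈ Ideal.span (θ '' {j | j < i})) :
    ext (HS ℬ (1 : B ≃ₐ[k] B) ⊤ - HS ℬ 1 (Ideal.span (θ '' {j | j < n}))) =
      dels ((List.range n).map e) (ext (hil ℬ)) := by
  induction n with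
  | zero =>
    have : Ideal.span (θ '' {j | j < 0}) = (⊥ : Ideal B) := by simp
    rw [this, HS_bot, sub_zero, HS_one_top]
    rfl
  | succ n ih =>
    have ih' := ih (fun i hi => hθ i (by omega)) (fun i hi => hreg i (by omega))
    set I := Ideal.span (θ '' {j | j < n}) with hI
    have hGS : GS ℬ (1 : B ≃ₐ[k] B) I := by
      refine ⟨Ideal.homogeneous_span ℬ _ ?_, fun x hx => hx⟩
      rintro _ ⟨j, hj, rfl⟩
      exact ⟨e j, hθ j (by have : j < n := hj; omega)⟩
    have hT : GS ℬ (1 : B ≃ₐ[k] B) ⊤ := ⟨Ideal.IsHomogeneous.top ℬ, fun _ _ => trivial⟩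
    have h1 := HS_step (g := (1 : B ≃ₐ[k] B)) (fun m x hx => hx) (hθ n (by omega))
      (χ := 1) (by rw [one_smul]; rfl) one_ne_zero hT hGS
    have hk : kerI (θ n) ⊤ I = I := by
      ext x
      rw [mem_kerI]
      exact ⟨fun h => hreg n (by omega) x h.2, fun h => ⟨trivial, I.mul_mem_left _ h⟩⟩
    have hc : cokI (θ n) ⊤ I = Ideal.span (θ '' {j | j < n + 1}) := by
      have : θ '' {j | j < n + 1} = insert (θ n) (θ '' {j | j < n}) := by
        rw [← Set.image_insert_eq]
        congr 1
        ext j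
        simp only [Set.mem_ofPred_eq, Set.mem_insert_iff]
        omega
      rw [this]
      ext x
      rw [mem_cokI, Ideal.mem_span_insert]
      constructor
      · rintro ⟨y, -, a, ha, rfl⟩
        exact ⟨y, a, ha, by ring⟩
      · rintro ⟨y, a, ha, rfl⟩
        exact ⟨y, trivial, a, ha, by ring⟩
    rw [hk, hc, map_one, one_mul] at h1
    have h2 : HS ℬ (1 : B ≃ₐ[k] B) ⊤ - HS ℬ 1 (Ideal.span (θ '' {j | j < n + 1})) =
        (1 - PowerSeries.X ^ (e n)) * (HS ℬ (1 : B ≃ₐ[k] B) ⊤ - HS ℬ 1 I) := by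
      linear_combination -h1
    rw [h2, ext_mul, ih', List.range_succ, List.map_append]
    rw [← dels_del]
    clear ih' ih h1 h2 hk hc hT hGS hreg hθ
    induction (List.range n) with
    | nil => rfl
    | cons a l ih => rw [List.map_cons, dels_cons, ih]; rfl

omit [GradedAlgebra ℬ] hfd in
theorem pair_le {V W : Type*} [AddCommGroup V] [Module k V] [FiniteDimensional k V]
    [AddCommGroup W] [Module k W] [FiniteDimensional k W] (b : V →ₗ[k] W →ₗ[k] k)
    (V₀ : Submodule k V) (W₀ : Submodule k W) (h₁ : ∀ x, (∀ y, b x y = 0) → x ∈ V₀)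
    (h₂ : ∀ y ∈ W₀, ∀ x, b x y = 0) :
    finrank k V + finrank k W₀ ≤ finrank k W + finrank k V₀ := by
  let c : V →ₗ[k] (W ⧸ W₀) →ₗ[k] k := (W₀.liftQ b.flip (by
    intro y hy
    rw [LinearMap.mem_ker]
    apply LinearMap.ext
    intro x
    exact h₂ y hy x)).flip
  have hc : ker c ≤ V₀ := by
    intro x hx
    apply h₁
    intro y
    have := LinearMap.congr_fun (LinearMap.mem_ker.1 hx) (W₀.mkQ y)
    exact this
  have e1 := LinearMap.finrank_range_add_finrank_ker c
  have e2 := Submodule.finrank_mono hc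
  have e3 : finrank k (LinearMap.range c) ≤ finrank k ((W ⧸ W₀) →ₗ[k] k) :=
    Submodule.finrank_le _
  have e4 : finrank k ((W ⧸ W₀) →ₗ[k] k) = finrank k (W ⧸ W₀) :=
    Subspace.dual_finrank_eq
  have e5 := Submodule.finrank_quotient_add_finrank W₀
  omega

theorem perfect (s : ℕ) (I : Ideal B)
    (h5 : finrank k (ℬ s) = finrank k ↥(I.restrictScalars k ⊓ ℬ s : Submodule k B) + 1)
    (h6 : ∀ m, m ≤ s → ∀ x ∈ ℬ m, (∀ y ∈ ℬ (s - m), x * y ∈ I) → x ∈ I) :
    ∀ m, m ≤ s → finrank k (ℬ m) + finrank k (pc ℬ I (s - m)) =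
      finrank k (ℬ (s - m)) + finrank k (pc ℬ I m) := by
  have hco : ∀ m, finrank k ((pc ℬ I m).comap (ℬ m).subtype) = finrank k (pc ℬ I m) := by
    intro m
    have h4 : ((pc ℬ I m).comap (ℬ m).subtype).map (ℬ m).subtype = pc ℬ I m := by
      rw [Submodule.map_comap_subtype]
      exact inf_eq_right.2 fun x hx => hx.2
    rw [← Submodule.finrank_map_subtype_eq, h4]
  have hq : finrank k (ℬ s ⧸ ((pc ℬ I s).comap (ℬ s).subtype)) = 1 := by
    have e1 := Submodule.finrank_quotient_add_finrank ((pc ℬ I s).comap (ℬ s).subtype)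
    rw [hco, h5] at e1
    have e2 : finrank k (pc ℬ I s) = finrank k ↥(I.restrictScalars k ⊓ ℬ s : Submodule k B) := rfl
    omega
  obtain ⟨eq⟩ : Nonempty ((ℬ s ⧸ ((pc ℬ I s).comap (ℬ s).subtype)) ≃ₗ[k] k) :=
    FiniteDimensional.nonempty_linearEquiv_of_finrank_eq (by rw [hq, finrank_self])
  let lam : ℬ s →ₗ[k] k := eq.toLinearMap ∘ₗ ((pc ℬ I s).comap (ℬ s).subtype).mkQ
  have hlam : ∀ z : ℬ s, lam z = 0 ↔ (z : B) ∈ I := by
    intro z
    show eq (((pc ℬ I s).comap (ℬ s).subtype).mkQ z) = 0 ↔ _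
    rw [LinearEquiv.map_eq_zero_iff, Submodule.mkQ_apply, Submodule.Quotient.mk_eq_zero,
      Submodule.mem_comap]
    exact ⟨fun h => h.1, fun h => ⟨h, z.2⟩⟩
  have main : ∀ m j, m + j = s → finrank k (ℬ m) + finrank k (pc ℬ I j) ≤
      finrank k (ℬ j) + finrank k (pc ℬ I m) := by
    intro m j hmj
    subst hmj
    let b : ℬ m →ₗ[k] ℬ j →ₗ[k] k := LinearMap.mk₂ k
      (fun x y => lam ⟨(x : B) * y, SetLike.mul_mem_graded x.2 y.2⟩)
      (by
        intro x x' y
        rw [← map_add]
        congr 1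
        apply Subtype.ext
        simp [add_mul])
      (by
        intro c x y
        rw [← map_smul]
        congr 1
        apply Subtype.ext
        simp)
      (by
        intro x y y'
        rw [← map_add]
        congr 1
        apply Subtype.ext
        simp [mul_add])
      (by
        intro c x y
        rw [← map_smul]
        congr 1
        apply Subtype.ext
        simp)
    have hb : ∀ x y, b x y = 0 ↔ (x : B) * y ∈ I := fun x y => hlam _
    have := pair_le b ((pc ℬ I m).comap (ℬ m).subtype) ((pc ℬ I j).comap (ℬ j).subtype)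
      (by
        intro x hx
        refine ⟨h6 m (by omega) x x.2 fun y hy => ?_, x.2⟩
        have hy' : y ∈ ℬ j := by rwa [Nat.add_sub_cancel_left] at hy
        exact (hb x ⟨y, hy'⟩).1 (hx ⟨y, hy'⟩))
      (by
        intro y hy x
        rw [hb]
        exact I.mul_mem_left _ hy.1)
    rwa [hco, hco] at this
  intro m hm
  exact le_antisymm (main m (s - m) (by omega)) (main (s - m) m (by omega))

/-- the symmetrised Hilbert function of a Gorenstein ring -/
noncomputable def sym (ℬ : ℕ → Submodule k B) (n r : ℕ) : ℤ → k :=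
  ext (hil ℬ) + (-1 : k) ^ n • refl r (ext (hil ℬ))

theorem gor_rec {n r : ℕ} (h : IsGorensteinGraded ℬ n r) :
    ∃ L : List ℕ, (∀ e ∈ L, 0 < e) ∧ dels L (sym ℬ n r) = 0 := by
  obtain ⟨θ, e, s, h1, h2, h3, h4, h5, h6⟩ := h
  let θ' : ℕ → B := fun i => if hi : i < n + 1 then θ ⟨i, hi⟩ else 0
  let e' : ℕ → ℕ := fun i => if hi : i < n + 1 then e ⟨i, hi⟩ else 1
  have him : ∀ i : Fin (n + 1), θ' '' {j | j < i.1} = θ '' {j | j < i} := by
    intro i
    ext x
    constructor
    · rintro ⟨j, hj, rfl⟩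
      have hj' : j < i.1 := hj
      refine ⟨⟨j, by omega⟩, hj', ?_⟩
      simp only [θ']
      rw [dif_pos]
    · rintro ⟨j, hj, rfl⟩
      refine ⟨j.1, hj, ?_⟩
      simp only [θ']
      rw [dif_pos j.2]
  have hra : θ' '' {j | j < n + 1} = Set.range θ := by
    ext x
    constructor
    · rintro ⟨j, hj, rfl⟩
      have hj' : j < n + 1 := hj
      refine ⟨⟨j, hj'⟩, ?_⟩
      simp only [θ']
      rw [dif_pos]
    · rintro ⟨j, rfl⟩
      refine ⟨j.1, j.2, ?_⟩
      simp only [θ']
      rw [dif_pos j.2]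
  set L := (List.range (n + 1)).map e' with hL
  have hLlen : L.length = n + 1 := by simp [L]
  have hLsum : L.sum = ∑ i, e i := by
    rw [hL, list_sum, Finset.sum_range]
    refine Finset.sum_congr rfl fun i _ => ?_
    simp only [e']
    rw [dif_pos i.2]
  have hprod := reg_prod (ℬ := ℬ) (n + 1) θ' e' (fun i hi => by
      simp only [θ', e']
      rw [dif_pos hi, dif_pos hi]
      exact (h1 ⟨i, hi⟩).2) (fun i hi x hx => by
      have := him ⟨i, hi⟩
      dsimp only at this
      rw [this] at hx ⊢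
      simp only [θ'] at hx
      rw [dif_pos hi] at hx
      exact h2 _ x hx)
  rw [hra, ← hL] at hprod
  set I := Ideal.span (Set.range θ) with hI
  have hval : ∀ m : ℕ, ext (HS ℬ (1 : B ≃ₐ[k] B) ⊤ - HS ℬ 1 I) m =
      (finrank k (ℬ m) : k) - (finrank k (pc ℬ I m) : k) := by
    intro m
    rw [ext_nat, map_sub, HS_one, HS_one, pc_top]
  have hbig : ∀ m : ℕ, s < m → pc ℬ I m = ℬ m := by
    intro m hm
    ext x
    rw [mem_pc]
    exact ⟨fun h => h.2, fun h => ⟨h4 m hm x h, h⟩⟩
  have hpair := perfect s I h5 h6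
  refine ⟨L, ?_, ?_⟩
  · intro a ha
    obtain ⟨i, hi, rfl⟩ := List.mem_map.1 ha
    simp only [e']
    rw [dif_pos (List.mem_range.1 hi)]
    exact (h1 _).1
  · funext m
    rw [sym, dels_add, dels_smul, Pi.add_apply, Pi.smul_apply, dels_refl, ← hprod, hLlen, hLsum,
      ← h3, smul_eq_mul, Pi.zero_apply]
    have e1 : (-(r : ℤ) - m + ((s + r : ℕ) : ℤ)) = s - m := by push_cast; ring
    rw [e1, ← mul_assoc, ← pow_add]
    have e2 : (-1 : k) ^ (n + (n + 1)) = -1 := by
      rw [← add_assoc, ← two_mul, pow_succ, pow_mul]; simp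
    rw [e2, neg_one_mul, ← sub_eq_add_neg, sub_eq_zero]
    rcases lt_or_ge m 0 with hm | hm
    · rw [ext_neg _ _ hm]
      obtain ⟨j, hj⟩ := Int.eq_ofNat_of_zero_le (show 0 ≤ (s : ℤ) - m by omega)
      rw [hj, hval, hbig j (by omega), sub_self]
    · obtain ⟨m, rfl⟩ := Int.eq_ofNat_of_zero_le hm
      by_cases hms : m ≤ s
      · rw [show (s : ℤ) - (m : ℤ) = ((s - m : ℕ) : ℤ) by omega, hval, hval]
        have := hpair m hms
        have h' : (finrank k (ℬ m) : k) + (finrank k (pc ℬ I (s - m)) : k) =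
            (finrank k (ℬ (s - m)) : k) + (finrank k (pc ℬ I m) : k) := by
          rw [← Nat.cast_add, ← Nat.cast_add, this]
        linear_combination h'
      · rw [hval, hbig m (by omega), sub_self, ext_neg _ _ (by omega)]

end gor

end Pool.Agent.E8helper38.KV
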