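import Pool.Agent.E8helper38.KV.Fix

/-!
# Rings of invariants, sections without common zeros
-/

set_option autoImplicit false

namespace Pool.Agent.E8helper38.KV

open LinearMap Module DirectSum

variable {k : Type*} [Field k] {R : Type*} [CommRing R] [Algebra k R]

/-- The elements of degree `p` have no common zero on `Proj S`: the ideal generated by them contains
all elements of large degree. (If `S` is the section ring of an ample invertible sheaf `L`, this says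
that `L ^ p` is globally generated, and it holds for all large `p`.) -/
def NoCommonZero {S : Type*} [CommRing S] [Algebra k S] (ℬ : ℕ → Submodule k S) (p : ℕ) : Prop :=
  ∃ K : ℕ, ∀ m, K ≤ m → ∀ x ∈ ℬ m, x ∈ Ideal.span (ℬ p : Set S)

section inv
variable (𝒜 : ℕ → Submodule k R) {G : Type*} [Group G] (ρ : G →* (R ≃ₐ[k] R))

/-- the invariants of degree `m` -/
def invs (m : ℕ) : Submodule k R where
  carrier := {x | x ∈ 𝒜 m ∧ ∀ g, ρ g x = x}
  add_mem' := by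
    rintro a b ⟨ha, ha'⟩ ⟨hb, hb'⟩
    exact ⟨(𝒜 m).add_mem ha hb, fun g => by rw [map_add, ha', hb']⟩
  zero_mem' := ⟨(𝒜 m).zero_mem, fun g => map_zero _⟩
  smul_mem' := by
    rintro c x ⟨hx, hx'⟩
    exact ⟨(𝒜 m).smul_mem c hx, fun g => by rw [map_smul, hx']⟩

theorem mem_invs {m : ℕ} {x : R} : x ∈ invs 𝒜 ρ m ↔ x ∈ 𝒜 m ∧ ∀ g, ρ g x = x := Iff.rfl

theorem trace_proj {V : Type*} [AddCommGroup V] [Module k V] [FiniteDimensional k V]
    {p : Submodule k V} {P : V →ₗ[k] V} (h : IsProj p P) : trace k V P = (finrank k p : k) :=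
  h.trace

theorem sum_trace [Fintype G] [CharZero k] [∀ m, FiniteDimensional k (𝒜 m)]
    (hρ : ∀ g m, ∀ x ∈ 𝒜 m, ρ g x ∈ 𝒜 m) (m : ℕ) :
    ∑ g, trOn (ρ g).toLinearMap (𝒜 m) = (Fintype.card G : k) * (finrank k (invs 𝒜 ρ m) : k) := by
  classical
  have hc : (Fintype.card G : k) ≠ 0 := Nat.cast_ne_zero.2 Fintype.card_ne_zero
  let r : G → (𝒜 m →ₗ[k] 𝒜 m) := fun g => (ρ g).toLinearMap.restrict (hρ g m)
  have hr : ∀ g x, ((r g x : 𝒜 m) : R) = ρ g x := fun g x => rfl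
  let P : 𝒜 m →ₗ[k] 𝒜 m := (Fintype.card G : k)⁻¹ • ∑ g, r g
  have hP : ∀ x : 𝒜 m, ((P x : 𝒜 m) : R) = (Fintype.card G : k)⁻¹ • ∑ g, ρ g (x : R) := by
    intro x
    simp only [P, LinearMap.smul_apply, LinearMap.sum_apply, Submodule.coe_smul,
      AddSubmonoidClass.coe_finsetSum, hr]
  let I : Submodule k (𝒜 m) := (invs 𝒜 ρ m).comap (𝒜 m).subtype
  have hI : ∀ x : 𝒜 m, x ∈ I ↔ ∀ g, ρ g (x : R) = x := by
    intro x
    show (x : R) ∈ invs 𝒜 ρ m ↔ _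
    rw [mem_invs]
    exact ⟨fun h => h.2, fun h => ⟨x.2, h⟩⟩
  have hproj : IsProj I P := by
    constructor
    · intro x
      rw [hI]
      intro g
      rw [hP, map_smul, map_sum]
      congr 1
      rw [← Equiv.sum_comp (Equiv.mulLeft g) fun h => ρ h (x : R)]
      refine Finset.sum_congr rfl fun h _ => ?_
      rw [Equiv.coe_mulLeft, map_mul]
      rfl
    · intro x hx
      rw [hI] at hx
      apply Subtype.ext
      rw [hP]
      simp only [hx, Finset.sum_const, Finset.card_univ]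
      rw [← Nat.cast_smul_eq_nsmul k, smul_smul, inv_mul_cancel₀ hc, one_smul]
  have h1 := trace_proj hproj
  have h3 : finrank k I = finrank k (invs 𝒜 ρ m) := by
    have h4 : I.map (𝒜 m).subtype = invs 𝒜 ρ m := by
      rw [Submodule.map_comap_subtype]
      exact inf_eq_right.2 fun x hx => hx.1
    rw [← h4, Submodule.finrank_map_subtype_eq]
  rw [map_smul, map_sum, smul_eq_mul, h3] at h1
  rw [← h1, mul_inv_cancel_left₀ hc]
  refine Finset.sum_congr rfl fun g _ => ?_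
  rw [trOn_eq _ _ (hρ g m)]

end inv

section transfer
variable {𝒜 : ℕ → Submodule k R} [GradedAlgebra 𝒜]
  {S : Type*} [CommRing S] [Algebra k S] {ℬ : ℕ → Submodule k S} [GradedAlgebra ℬ]

theorem decompose_map (φ : S →ₐ[k] R) (hφ : ∀ m, ∀ x ∈ ℬ m, φ x ∈ 𝒜 m) (s : S) (i : ℕ) :
    (decompose 𝒜 (φ s) i : R) = φ (decompose ℬ s i) := by
  classical
  conv_lhs => rw [← DirectSum.sum_support_decompose ℬ s, map_sum]
  rw [decompose_sum, DFinsupp.finsetSum_apply, AddSubmonoidClass.coe_finsetSum]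
  by_cases hi : i ∈ (decompose ℬ s).support
  · rw [Finset.sum_eq_single i]
    · exact decompose_of_mem_same 𝒜 (hφ i _ (decompose ℬ s i).2)
    · intro j _ hj
      exact decompose_of_mem_ne 𝒜 (hφ j _ (decompose ℬ s j).2) hj
    · intro h; exact absurd hi h
  · have h0 : decompose ℬ s i = 0 := by
      by_contra h
      exact hi (DFinsupp.mem_support_toFun _ _ |>.2 h)
    rw [h0, ZeroMemClass.coe_zero, map_zero]
    apply Finset.sum_eq_zero
    intro j hj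
    have hji : j ≠ i := fun h => hi (h ▸ hj)
    exact decompose_of_mem_ne 𝒜 (hφ j _ (decompose ℬ s j).2) hji

theorem transfer {G : Type*} [Group G] [Finite G] (ρ : G →* (R ≃ₐ[k] R))
    [Algebra.FiniteType k R] (φ : S →ₐ[k] R) (hφ : ∀ m, ∀ x ∈ ℬ m, φ x ∈ 𝒜 m)
    (hinv : ∀ s g, ρ g (φ s) = φ s) (hsurj : ∀ x, (∀ g, ρ g x = x) → ∃ s, φ s = x)
    {p : ℕ} (hp : NoCommonZero ℬ p) :
    ∃ K : ℕ, ∀ m, K ≤ m → ∀ x ∈ 𝒜 m, x ∈ Ideal.span (φ '' (ℬ p : Set S)) := by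
  classical
  letI : Algebra S R := φ.toRingHom.toAlgebra
  haveI : IsScalarTower k S R := IsScalarTower.of_algebraMap_eq fun c => (φ.commutes c).symm
  letI : MulSemiringAction G R := MulSemiringAction.compHom R ρ
  haveI : Algebra.IsInvariant S R G := ⟨fun b hb => hsurj b hb⟩
  haveI : SMulCommClass G S R := ⟨fun g s x => by
    show ρ g (φ s * x) = φ s * ρ g x
    rw [map_mul, hinv]⟩
  haveI : Algebra.IsIntegral S R := Algebra.IsInvariant.isIntegral S R G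
  haveI : Algebra.FiniteType S R := Algebra.FiniteType.of_restrictScalars_finiteType k S R
  haveI : Module.Finite S R := Algebra.IsIntegral.finite
  obtain ⟨F, hF⟩ := (Module.Finite.fg_top : (⊤ : Submodule S R).FG)
  obtain ⟨D, hD⟩ : ∃ D : ℕ, ∀ a ∈ F, ∀ i, (decompose 𝒜 a i : R) ≠ 0 → i ≤ D := by
    refine ⟨F.sup fun a => (decompose 𝒜 a).support.sup id, ?_⟩
    intro a ha i hi
    have h1 : i ∈ (decompose 𝒜 a).support := by
      rw [DFinsupp.mem_support_toFun]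
      intro h0
      exact hi (by rw [h0]; rfl)
    exact le_trans (Finset.le_sup (f := id) h1)
      (Finset.le_sup (f := fun a => (decompose 𝒜 a).support.sup id) ha)
  obtain ⟨K, hK⟩ := hp
  set I := Ideal.span (φ '' (ℬ p : Set S)) with hI
  have hmap : ∀ s ∈ Ideal.span (ℬ p : Set S), φ s ∈ I := by
    intro s hs
    have := Ideal.mem_map_of_mem φ hs
    rwa [Ideal.map_span] at this
  have key : ∀ a ∈ F, ∀ s : S, ∀ m, K + D ≤ m → (decompose 𝒜 (φ s * a) m : R) ∈ I := by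
    intro a ha s m hm
    have h1 : φ s * a = ∑ i ∈ (decompose 𝒜 a).support, φ s * (decompose 𝒜 a i : R) := by
      rw [← Finset.mul_sum, DirectSum.sum_support_decompose 𝒜 a]
    have h2 : (decompose 𝒜 (φ s * a) m : R) =
        ∑ i ∈ (decompose 𝒜 a).support, (decompose 𝒜 (φ s * (decompose 𝒜 a i : R)) m : R) := by
      rw [h1, decompose_sum, DFinsupp.finsetSum_apply, AddSubmonoidClass.coe_finsetSum]
    rw [h2]
    apply Ideal.sum_mem
    intro i hi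
    have hi' : (decompose 𝒜 a i : R) ≠ 0 := by
      intro h0
      rw [DFinsupp.mem_support_toFun] at hi
      exact hi (Subtype.ext h0)
    have hiD := hD a ha i hi'
    rw [coe_decompose_mul_of_right_mem_of_le 𝒜 (decompose 𝒜 a i).2 (by omega),
      decompose_map φ hφ]
    exact Ideal.mul_mem_right _ _ (hmap _ (hK (m - i) (by omega) _ (decompose ℬ s (m - i)).2))
  refine ⟨K + D, fun m hm x hx => ?_⟩
  rw [← decompose_of_mem_same 𝒜 hx]
  have hx' : x ∈ Submodule.span S (F : Set R) := by rw [hF]; trivial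
  obtain ⟨c, rfl⟩ := Submodule.mem_span_finset'.1 hx'
  rw [decompose_sum, DFinsupp.finsetSum_apply, AddSubmonoidClass.coe_finsetSum]
  apply Ideal.sum_mem
  intro a _
  exact key a a.2 _ m hm

end transfer

section pole
variable {𝒜 : ℕ → Submodule k R} [GradedAlgebra 𝒜] {g : R ≃ₐ[k] R}

theorem pc_top (m : ℕ) : pc 𝒜 ⊤ m = 𝒜 m := by
  ext x
  simp [mem_pc]

theorem HS_bot [∀ m, FiniteDimensional k (𝒜 m)] : HS 𝒜 g ⊥ = 0 := by
  ext m
  rw [coeff_HS, map_zero]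
  have h0 : ∀ x ∈ pc 𝒜 (⊥ : Ideal R) m, g.toLinearMap x ∈ pc 𝒜 (⊥ : Ideal R) m := by
    intro x hx
    have : x = 0 := hx.1
    rw [this, map_zero]
    exact Submodule.zero_mem _
  rw [trOn_eq _ _ h0]
  have h1 : g.toLinearMap.restrict h0 = 0 := by
    apply LinearMap.ext
    rintro ⟨x, hx⟩
    apply Subtype.ext
    have : x = 0 := hx.1
    subst this
    simp
  rw [h1, map_zero]

/-- the denominators given by a list generating an ideal of finite codimension -/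
theorem den_mem [IsNoetherianRing R] [∀ m, FiniteDimensional k (𝒜 m)]
    (hg : ∀ m, ∀ x ∈ 𝒜 m, g x ∈ 𝒜 m)
    (l : List (R × ℕ × k))
    (hl : ∀ t ∈ l, t.1 ∈ 𝒜 t.2.1 ∧ g t.1 = t.2.2 • t.1 ∧ t.2.2 ≠ 0)
    (hK : ∃ K : ℕ, ∀ m, K ≤ m → ∀ x ∈ 𝒜 m, x ∈ Ideal.span {z | z ∈ l.map Prod.fst}) :
    den l ∈ denom (HS 𝒜 g ⊤) := by
  rw [mem_denom]
  obtain ⟨K, hK⟩ := hK
  have h := hilbert_serre hg l hl ⊤ ⊥ ⟨Ideal.IsHomogeneous.top 𝒜, fun _ _ => trivial⟩
    ⟨Ideal.IsHomogeneous.bot 𝒜, fun x hx => by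
      have : x = 0 := hx
      rw [this, map_zero]; exact Submodule.zero_mem _⟩ bot_le
    ⟨K, fun m hm x hx => ⟨x, hK m hm x hx, 0, by simp, fun n _ => by simp⟩⟩
  rwa [HS_bot, sub_zero] at h

theorem den_root (l : List (R × ℕ × k)) {p : ℕ} (hl : ∀ t ∈ l, t.2.1 = p ∧ t.2.2 = 1) (ζ : k)
    (h : (den l).IsRoot ζ) : ζ ^ p = 1 := by
  induction l with
  | nil => simp [den, Polynomial.IsRoot] at h
  | cons t l ih =>
    have h5 : den (t :: l) = (1 - Polynomial.C t.2.2 * Polynomial.X ^ t.2.1) * den l := by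
      rw [den, List.map_cons, List.prod_cons, ← den]
    rw [h5, Polynomial.IsRoot, Polynomial.eval_mul, mul_eq_zero] at h
    rcases h with h | h
    · obtain ⟨h1, h2⟩ := hl t (by simp)
      rw [h1, h2] at h
      simp only [map_one, one_mul, Polynomial.eval_sub, Polynomial.eval_one,
        Polynomial.eval_pow, Polynomial.eval_X] at h
      exact (sub_eq_zero.1 h).symm
    · exact ih (fun t ht => hl t (by simp [ht])) h

theorem den_inv [IsNoetherianRing R] [∀ m, FiniteDimensional k (𝒜 m)]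
    (hg : ∀ m, ∀ x ∈ 𝒜 m, g x ∈ 𝒜 m) {p : ℕ} {Z : Set R} (hZ : ∀ z ∈ Z, z ∈ 𝒜 p ∧ g z = z)
    (hK : ∃ K : ℕ, ∀ m, K ≤ m → ∀ x ∈ 𝒜 m, x ∈ Ideal.span Z) :
    ∃ D : Polynomial k, D ∈ denom (HS 𝒜 g ⊤) ∧ ∀ ζ, D.IsRoot ζ → ζ ^ p = 1 := by
  classical
  obtain ⟨F, hFZ, hF⟩ := (Submodule.fg_span_iff_fg_span_finset_subset Z).1
    (IsNoetherian.noetherian (Ideal.span Z))
  let l : List (R × ℕ × k) := F.toList.map fun z => (z, p, (1 : k))
  have hl : ∀ t ∈ l, t.1 ∈ 𝒜 t.2.1 ∧ g t.1 = t.2.2 • t.1 ∧ t.2.2 ≠ 0 := by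
    intro t ht
    obtain ⟨z, hz, rfl⟩ := List.mem_map.1 ht
    obtain ⟨h1, h2⟩ := hZ z (hFZ (Finset.mem_toList.1 hz))
    exact ⟨h1, by rw [one_smul]; exact h2, one_ne_zero⟩
  have hl2 : ∀ t ∈ l, t.2.1 = p ∧ t.2.2 = 1 := by
    intro t ht
    obtain ⟨z, hz, rfl⟩ := List.mem_map.1 ht
    exact ⟨rfl, rfl⟩
  refine ⟨den l, den_mem hg l hl ?_, den_root l hl2⟩
  obtain ⟨K, hK⟩ := hK
  refine ⟨K, fun m hm x hx => ?_⟩
  have h1 : {z | z ∈ l.map Prod.fst} = (F : Set R) := by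
    ext z
    simp [l]
  rw [h1]
  have h2 : Ideal.span Z = Ideal.span (F : Set R) := hF
  rw [← h2]
  exact hK m hm x hx

/-- **The pole of the trace series.** -/
theorem pole [IsAlgClosed k] [CharZero k] [IsNoetherianRing R]
    [∀ m, FiniteDimensional k (𝒜 m)]
    (hg : ∀ m, ∀ x ∈ 𝒜 m, g x ∈ 𝒜 m) {d : ℕ} (hd : 0 < d) (hgd : g ^ d = 1) {f : ℕ}
    (hf : FixDimLE 𝒜 g f) {p q : ℕ} (hpq : p.Coprime q) {Z Z' : Set R}
    (hZ : ∀ z ∈ Z, z ∈ 𝒜 p ∧ g z = z) (hZ' : ∀ z ∈ Z', z ∈ 𝒜 q ∧ g z = z)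
    (hK : ∃ K : ℕ, ∀ m, K ≤ m → ∀ x ∈ 𝒜 m, x ∈ Ideal.span Z)
    (hK' : ∃ K : ℕ, ∀ m, K ≤ m → ∀ x ∈ 𝒜 m, x ∈ Ideal.span Z') :
    (1 - Polynomial.X : Polynomial k) ^ (f + 1) ∈ denom (HS 𝒜 g ⊤) := by
  obtain ⟨l, h1, h2, ⟨l₁, l₂, rfl, h3, h4⟩, h5⟩ := exists_list 𝒜 g hd hgd hg hf
  obtain ⟨D₂, h6, h7⟩ := den_inv hg hZ hK
  obtain ⟨D₃, h8, h9⟩ := den_inv hg hZ' hK'
  obtain ⟨e1, e2⟩ := den_rm0 l₁ h3
  obtain ⟨e3, e4⟩ := den_rm l₂ fun t ht => h2 t (by simp [ht])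
  have e5 := mul_ne_zero e1 e3
  refine denom_one (den_mem hg _ h1 h5) h6 h8 ?_ ?_ h7 h9 hpq
  · rw [den_append]; exact e5
  · rw [den_append, Polynomial.rootMultiplicity_mul e5, e2, zero_add, ← h4]
    exact e4

end pole

end Pool.Agent.E8helper38.KV
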