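import Pool.Agent.E8helper38.KV.Gor

/-!
# Quotients with small fixed loci
-/

set_option autoImplicit false

namespace Pool.Agent.E8helper38.KV

open LinearMap Module DirectSum

section seq
variable {k : Type*} [Field k]

theorem dels_replicate (a : ℕ) (x : ℤ → k) : dels (List.replicate a 1) x = (del 1)^[a] x := by
  induction a with
  | zero => rfl
  | succ a ih => rw [List.replicate_succ, dels_cons, ih, Function.iterate_succ_apply']

theorem iter_zero {a b : ℕ} (hab : a ≤ b) {x : ℤ → k} (h : (del 1)^[a] x = 0) :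
    (del 1)^[b] x = 0 := by
  obtain ⟨c, rfl⟩ := Nat.exists_eq_add_of_le' hab
  rw [Function.iterate_add_apply, h]
  rw [← dels_replicate, dels_zero]

/-- the final computation with finite differences -/
theorem final_comp {n r f : ℕ} (hr : 0 < r) {Q : ℤ → k} (h2 : (2 : k) ≠ 0)
    (hf : f ≤ r ∨ f ≤ r + 1 ∧ Even (n + r))
    (hQ : (del 1)^[f + 1] Q = 0) (hs : ∀ m, Q (-r - m) = (-1) ^ n * Q m)
    (h0 : ∀ m : ℤ, -r < m → m < 0 → Q m = 0) :
    Q 1 = Q 0 * (r + 1 + (-1) ^ (n + r)) := by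
  obtain ⟨r', rfl⟩ : ∃ r', r = r' + 1 := ⟨r - 1, by omega⟩
  have hsr : Q (-((r' + 1 : ℕ) : ℤ)) = (-1) ^ n * Q 0 := by
    have := hs 0
    rwa [sub_zero] at this
  rcases hf with hf | ⟨hf, hev⟩
  · have h1 := congrFun (iter_zero (show f + 1 ≤ r' + 1 + 1 by omega) hQ) 1
    rw [iter_sum, Finset.sum_range_succ, Finset.sum_range_succ, Finset.sum_range_succ',
      Finset.sum_eq_zero, zero_add, Pi.zero_apply] at h1
    · have e1 : (1 : ℤ) - ((r' + 1 + 1 : ℕ) : ℤ) + ((0 : ℕ) : ℤ) = -((r' + 1 : ℕ) : ℤ) := by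
        push_cast; ring
      have e2 : (1 : ℤ) - ((r' + 1 + 1 : ℕ) : ℤ) + ((r' + 1 : ℕ) : ℤ) = 0 := by
        push_cast; ring
      have e3 : (1 : ℤ) - ((r' + 1 + 1 : ℕ) : ℤ) + ((r' + 1 + 1 : ℕ) : ℤ) = 1 := by
        push_cast; ring
      rw [e1, e2, e3, hsr] at h1
      simp only [Nat.choose_zero_right, Nat.choose_self, Nat.sub_self, Nat.sub_zero, pow_zero,
        Nat.cast_one, Nat.choose_succ_self_right, mul_one, one_mul] at h1
      rw [show r' + 1 + 1 - (r' + 1) = 1 by omega, pow_one] at h1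
      have e4 : (-1 : k) ^ (r' + 1 + 1) * ((-1) ^ n * Q 0) = - ((-1) ^ (n + (r' + 1)) * Q 0) := by
        rw [pow_succ, pow_add]; ring
      rw [e4] at h1
      push_cast at h1 ⊢
      linear_combination h1
    · intro j hj
      rw [Finset.mem_range] at hj
      rw [h0 _ (by push_cast; omega) (by push_cast; omega), mul_zero]
  · have h1 := congrFun (iter_zero (show f + 1 ≤ r' + 1 + 2 by omega) hQ) 1
    rw [show r' + 1 + 2 = r' + 3 by ring, iter_sum, Finset.sum_range_succ,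
      Finset.sum_range_succ, Finset.sum_range_succ', Finset.sum_range_succ',
      Finset.sum_eq_zero, zero_add, Pi.zero_apply] at h1
    · have e0 : (1 : ℤ) - ((r' + 3 : ℕ) : ℤ) + ((0 : ℕ) : ℤ) = -((r' + 1 : ℕ) : ℤ) - 1 := by
        push_cast; ring
      have e1 : (1 : ℤ) - ((r' + 3 : ℕ) : ℤ) + ((0 + 1 : ℕ) : ℤ) = -((r' + 1 : ℕ) : ℤ) := by
        push_cast; ring
      have e2 : (1 : ℤ) - ((r' + 3 : ℕ) : ℤ) + ((r' + 2 : ℕ) : ℤ) = 0 := by
        push_cast; ring
      have e3 : (1 : ℤ) - ((r' + 3 : ℕ) : ℤ) + ((r' + 3 : ℕ) : ℤ) = 1 := by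
        push_cast; ring
      rw [e0, e1, e2, e3, hsr, hs 1] at h1
      simp only [Nat.choose_zero_right, Nat.choose_self, Nat.sub_self, Nat.sub_zero, pow_zero,
        Nat.cast_one, zero_add, Nat.choose_one_right, mul_one, one_mul] at h1
      rw [show r' + 3 - (r' + 2) = 1 by omega, pow_one, show r' + 3 - 1 = r' + 2 by omega,
        show (r' + 3).choose (r' + 2) = r' + 3 from Nat.choose_succ_self_right _] at h1
      have e5 : (-1 : k) ^ (n + (r' + 1)) = 1 := hev.neg_one_pow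
      have e6 : (-1 : k) ^ (r' + 2) * ((r' + 3 : ℕ) : k) * ((-1) ^ n * Q 0) =
          - ((r' + 3 : ℕ) * Q 0) := by
        have : (-1 : k) ^ (r' + 2) * (-1) ^ n = -1 := by
          rw [← pow_add, show r' + 2 + n = (n + (r' + 1)) + 1 by ring, pow_succ, e5, one_mul]
        linear_combination (((r' + 3 : ℕ) : k) * Q 0) * this
      have e7 : (-1 : k) ^ (r' + 3) * ((-1) ^ n * Q 1) = Q 1 := by
        have : (-1 : k) ^ (r' + 3) * (-1) ^ n = 1 := by
          rw [← pow_add, show r' + 3 + n = (n + (r' + 1)) + 2 by ring, pow_add, e5]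
          norm_num
        linear_combination (Q 1) * this
      rw [e6, e7] at h1
      rw [e5]
      push_cast at h1 ⊢
      have h3 : (2 : k) * (Q 1 - Q 0 * (r' + 1 + 1 + 1)) = 0 := by linear_combination h1
      rcases mul_eq_zero.1 h3 with h | h
      · exact absurd h h2
      · exact sub_eq_zero.1 h
    · intro j hj
      rw [Finset.mem_range] at hj
      rw [h0 _ (by push_cast; omega) (by push_cast; omega), mul_zero]

end seq

section
variable {k : Type*} [Field k] {B : Type*} [CommRing B] [Algebra k B] {ℬ : ℕ → Submodule k B}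

theorem ext_hil (m : ℕ) : ext (hil ℬ) m = (finrank k (ℬ m) : k) := by
  rw [ext_nat, hil, PowerSeries.coeff_mk]

theorem sym_nat {n r : ℕ} (hr : 0 < r) (m : ℕ) : sym ℬ n r m = (finrank k (ℬ m) : k) := by
  rw [sym, Pi.add_apply, Pi.smul_apply, refl, ext_hil, ext_neg _ _ (by omega), smul_zero,
    add_zero]

theorem sym_refl {n r : ℕ} (m : ℤ) : sym ℬ n r (-r - m) = (-1) ^ n * sym ℬ n r m := by
  rw [sym, Pi.add_apply, Pi.smul_apply, Pi.add_apply, Pi.smul_apply, refl, refl, smul_eq_mul,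
    smul_eq_mul, show -(r : ℤ) - (-(r : ℤ) - m) = m by ring]
  have : (-1 : k) ^ n * (-1) ^ n = 1 := by rw [← pow_add, ← two_mul, pow_mul]; simp
  linear_combination (-ext (hil ℬ) (-(r : ℤ) - m)) * this

theorem sym_mid {n r : ℕ} (m : ℤ) (h1 : -r < m) (h2 : m < 0) : sym ℬ n r m = 0 := by
  rw [sym, Pi.add_apply, Pi.smul_apply, refl, ext_neg _ _ h2, ext_neg _ _ (by omega),
    smul_zero, add_zero]

end

section main
variable {k : Type*} [Field k] [IsAlgClosed k] [CharZero k]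
  {R : Type*} [CommRing R] [Algebra k R] [Algebra.FiniteType k R]
  (𝒜 : ℕ → Submodule k R) [GradedAlgebra 𝒜] [∀ m, FiniteDimensional k (𝒜 m)]
  {S : Type*} [CommRing S] [Algebra k S] (ℬ : ℕ → Submodule k S) [GradedAlgebra ℬ]
  {G : Type*} [Group G] [Fintype G] (ρ : G →* (R ≃ₐ[k] R)) (φ : S →ₐ[k] R)

omit [IsAlgClosed k] [CharZero k] [Algebra.FiniteType k R] [Fintype G] in
theorem finrank_invs (hφ : ∀ m, ∀ x ∈ ℬ m, φ x ∈ 𝒜 m)
    (hinj : Function.Injective φ) (hinv : ∀ y, (∃ x, φ x = y) ↔ ∀ g, ρ g y = y) (m : ℕ) :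
    finrank k (invs 𝒜 ρ m) = finrank k (ℬ m) ∧ FiniteDimensional k (ℬ m) := by
  have h1 : (ℬ m).map φ.toLinearMap = invs 𝒜 ρ m := by
    ext y
    rw [Submodule.mem_map, mem_invs]
    constructor
    · rintro ⟨x, hx, rfl⟩
      exact ⟨hφ m x hx, (hinv _).1 ⟨x, rfl⟩⟩
    · rintro ⟨hy, hy'⟩
      obtain ⟨x, rfl⟩ := (hinv y).2 hy'
      refine ⟨decompose ℬ x m, (decompose ℬ x m).2, ?_⟩
      show φ (decompose ℬ x m) = φ x
      rw [← decompose_map φ hφ]
      exact decompose_of_mem_same 𝒜 hy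
  have h2 : Function.Injective φ.toLinearMap := hinj
  let e : ℬ m ≃ₗ[k] (ℬ m).map φ.toLinearMap := Submodule.equivMapOfInjective _ h2 _
  have h3 : FiniteDimensional k (invs 𝒜 ρ m) :=
    Submodule.finiteDimensional_of_le (fun x hx => hx.1 : invs 𝒜 ρ m ≤ 𝒜 m)
  rw [← h1] at h3
  exact ⟨by rw [← h1]; exact e.symm.finrank_eq, e.symm.finiteDimensional⟩

/-- **Quotients with small fixed loci.** -/
theorem main (hρ : ∀ g m, ∀ x ∈ 𝒜 m, ρ g x ∈ 𝒜 m) (h𝒜 : finrank k (𝒜 0) = 1)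
    (hφ : ∀ m, ∀ x ∈ ℬ m, φ x ∈ 𝒜 m) (hinj : Function.Injective φ)
    (hinv : ∀ y, (∃ x, φ x = y) ↔ ∀ g, ρ g y = y)
    {p q : ℕ} (hpq : p.Coprime q) (hp : NoCommonZero ℬ p) (hq : NoCommonZero ℬ q)
    {n r f : ℕ} (hr : 0 < r) (hR : IsGorensteinGraded 𝒜 n r) (hS : IsGorensteinGraded ℬ n r)
    (hfix : ∀ g, g ≠ 1 → FixDimLE 𝒜 (ρ g) f) (hf : f ≤ r ∨ f ≤ r + 1 ∧ Even (n + r)) :
    (Fintype.card G : ℤ) * finrank k (ℬ 1) =
      finrank k (𝒜 1) + (Fintype.card G - 1) * (r + 1 + (-1) ^ (n + r)) := by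
  classical
  haveI hfd : ∀ m, FiniteDimensional k (ℬ m) := fun m => (finrank_invs 𝒜 ℬ ρ φ hφ hinj hinv m).2
  haveI : IsNoetherianRing R := Algebra.FiniteType.isNoetherianRing k R
  have hfr := fun m => (finrank_invs 𝒜 ℬ ρ φ hφ hinj hinv m).1
  obtain ⟨L₁, hL₁, hL₁'⟩ := gor_rec hR
  obtain ⟨L₂, hL₂, hL₂'⟩ := gor_rec hS
  set c : k := (Fintype.card G : k) with hc
  set Q : ℤ → k := c • sym ℬ n r + (-1 : k) • sym 𝒜 n r with hQ
  have hQrec : dels L₂ (dels L₁ Q) = 0 := by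
    rw [hQ, dels_add, dels_smul, dels_smul, hL₁', smul_zero, add_zero, dels_smul, dels_comm,
      hL₂', dels_zero, smul_zero]
  set F : PowerSeries k := ∑ g ∈ Finset.univ.erase (1 : G), HS 𝒜 (ρ g) ⊤ with hF
  have hFcoeff : ∀ m : ℕ, ext F m = c * (finrank k (ℬ m) : k) - (finrank k (𝒜 m) : k) := by
    intro m
    have h1 := sum_trace 𝒜 ρ hρ m
    rw [hfr, ← Finset.add_sum_erase _ _ (Finset.mem_univ (1 : G)), map_one] at h1
    have h2 : trOn (1 : R ≃ₐ[k] R).toLinearMap (𝒜 m) = (finrank k (𝒜 m) : k) := by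
      have := HS_one (k := k) (ℬ := 𝒜) ⊤ m
      rwa [coeff_HS, pc_top] at this
    rw [h2] at h1
    rw [ext_nat, hF, map_sum]
    have h3 : ∀ g ∈ Finset.univ.erase (1 : G), PowerSeries.coeff m (HS 𝒜 (ρ g) ⊤) =
        trOn (ρ g).toLinearMap (𝒜 m) := fun g _ => by rw [coeff_HS, pc_top]
    rw [Finset.sum_congr rfl h3, ← h1]
    ring
  have hpole : ((1 - Polynomial.X : Polynomial k) ^ (f + 1)) ∈ denom F := by
    have h1 : ∀ g ∈ Finset.univ.erase (1 : G),
        ((1 - Polynomial.X : Polynomial k) ^ (f + 1)) ∈ denom (HS 𝒜 (ρ g) ⊤) := by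
      intro g hg
      have hZ : ∀ p, ∀ z ∈ φ '' (ℬ p : Set S), z ∈ 𝒜 p ∧ ρ g z = z := by
        rintro p _ ⟨s, hs, rfl⟩
        exact ⟨hφ p s hs, (hinv _).1 ⟨s, rfl⟩ g⟩
      have htr : ∀ {p : ℕ}, NoCommonZero ℬ p → ∃ K : ℕ, ∀ m, K ≤ m → ∀ x ∈ 𝒜 m,
          x ∈ Ideal.span (φ '' (ℬ p : Set S)) := fun h =>
        transfer ρ φ hφ (fun s g => (hinv _).1 ⟨s, rfl⟩ g) (fun x hx => (hinv x).2 hx) h
      exact pole (hρ g) (Fintype.card_pos (α := G)) (by rw [← map_pow, pow_card_eq_one, map_one])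
        (hfix g (Finset.ne_of_mem_erase hg)) hpq (hZ p) (hZ q) (htr hp) (htr hq)
    rw [mem_denom, hF, Finset.mul_sum]
    have h2 : ∀ s : Finset G, s ⊆ Finset.univ.erase (1 : G) →
        EZ (∑ g ∈ s, (((1 - Polynomial.X) ^ (f + 1) : Polynomial k) : PowerSeries k) *
          HS 𝒜 (ρ g) ⊤) := by
      intro s
      induction s using Finset.induction_on with
      | empty => intro _; exact ⟨0, by simp⟩
      | insert a s ha ih =>
        intro hs
        rw [Finset.sum_insert ha]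
        exact EZ.add (h1 a (hs (Finset.mem_insert_self a s)))
          (ih fun x hx => hs (Finset.mem_insert_of_mem hx))
    exact h2 _ (Finset.Subset.refl _)
  have hQnat : ∀ m : ℕ, Q m = ext F m := by
    intro m
    rw [hFcoeff, hQ, Pi.add_apply, Pi.smul_apply, Pi.smul_apply, sym_nat hr, sym_nat hr,
      smul_eq_mul, smul_eq_mul]
    ring
  have hQpol : (del 1)^[f + 1] Q = 0 := by
    obtain ⟨M, hM⟩ := EZ.ev hpole
    have hev : ∀ m : ℤ, (M + (f + 1) : ℕ) ≤ m → (del 1)^[f + 1] Q m = 0 := by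
      intro m hm
      obtain ⟨m, rfl⟩ := Int.eq_ofNat_of_zero_le (show 0 ≤ m by omega)
      have h1 : (del 1)^[f + 1] Q m = (del 1)^[f + 1] (ext F) m := by
        rw [iter_sum, iter_sum]
        refine Finset.sum_congr rfl fun j _ => ?_
        have h2 : ((m : ℤ) - ((f + 1 : ℕ) : ℤ) + (j : ℤ)) = ((m - (f + 1) + j : ℕ) : ℤ) := by
          omega
        rw [h2, hQnat]
      rw [h1, ← ext_pow, ext_nat]
      exact hM m (by omega)
    rw [← dels_replicate] at hev ⊢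
    have h3 : dels L₂ (dels L₁ (dels (List.replicate (f + 1) 1) Q)) = 0 := by
      rw [dels_comm L₁, dels_comm L₂, hQrec, dels_zero]
    have h4 := dels_inj L₂ hL₂ h3 _ (dels_ev L₁ _ hev)
    exact dels_inj L₁ hL₁ h4 _ hev
  have hfin := final_comp hr two_ne_zero hf hQpol
    (by
      intro m
      rw [hQ, Pi.add_apply, Pi.smul_apply, Pi.smul_apply, Pi.add_apply, Pi.smul_apply,
        Pi.smul_apply, sym_refl, sym_refl]
      simp only [smul_eq_mul]
      ring)
    (by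
      intro m h1 h2
      rw [hQ, Pi.add_apply, Pi.smul_apply, Pi.smul_apply, sym_mid m h1 h2, sym_mid m h1 h2,
        smul_zero, smul_zero, add_zero])
  have hB0 : finrank k (ℬ 0) = 1 := by
    have h1 : invs 𝒜 ρ 0 = 𝒜 0 := by
      ext x
      rw [mem_invs]
      refine ⟨fun h => h.1, fun hx => ⟨hx, fun g => ?_⟩⟩
      have hone : (1 : R) ∈ 𝒜 0 := SetLike.GradedOne.one_mem
      have hne : (⟨1, hone⟩ : 𝒜 0) ≠ 0 := by
        intro h
        have h10 : (1 : R) = 0 := congrArg Subtype.val h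
        have : Subsingleton R := ⟨fun a b => by
          rw [← one_mul a, ← one_mul b, h10, zero_mul, zero_mul]⟩
        rw [finrank_zero_of_subsingleton] at h𝒜
        exact zero_ne_one h𝒜
      obtain ⟨a, ha⟩ := (finrank_eq_one_iff_of_nonzero' (⟨1, hone⟩ : 𝒜 0) hne).1 h𝒜 ⟨x, hx⟩
      have ha' : a • (1 : R) = x := congrArg Subtype.val ha
      rw [← ha', map_smul, map_one]
    rw [← hfr, h1, h𝒜]
  have e1 : Q 1 = c * (finrank k (ℬ 1) : k) - (finrank k (𝒜 1) : k) := by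
    have := hQnat 1
    rw [hFcoeff] at this
    exact_mod_cast this
  have e0 : Q 0 = c - 1 := by
    have := hQnat 0
    rw [hFcoeff, hB0, h𝒜] at this
    rw [Nat.cast_one, mul_one] at this
    exact_mod_cast this
  rw [e0, e1] at hfin
  have hfin' : (((Fintype.card G : ℤ) * finrank k (ℬ 1) - finrank k (𝒜 1) : ℤ) : k) =
      (((Fintype.card G : ℤ) - 1) * (r + 1 + (-1) ^ (n + r)) : ℤ) := by
    push_cast
    rw [hc] at hfin
    exact hfin
  have := Int.cast_injective hfin'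
  linarith

end main

end Pool.Agent.E8helper38.KV
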