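import Pool.Agent.E8helper38.KV.Tr

/-!
# The trace series of a graded automorphism

`HS 𝒜 g N` is the power series `∑ tr (g | N_m) t^m` of a homogeneous `g`-stable ideal `N`.
Equivariant form of the theorem of Hilbert and Serre.
-/

set_option autoImplicit false

namespace Pool.Agent.E8helper38.KV

open LinearMap Module DirectSum

section EZ
variable {k : Type*} [Field k]

/-- the power series is a polynomial -/
def EZ (F : PowerSeries k) : Prop := ∃ P : Polynomial k, (P : PowerSeries k) = F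

theorem EZ.add {F G : PowerSeries k} (hF : EZ F) (hG : EZ G) : EZ (F + G) := by
  obtain ⟨P, rfl⟩ := hF
  obtain ⟨Q, rfl⟩ := hG
  exact ⟨P + Q, Polynomial.coe_add P Q⟩

theorem EZ.neg {F : PowerSeries k} (hF : EZ F) : EZ (-F) := by
  obtain ⟨P, rfl⟩ := hF
  exact ⟨-P, by simp⟩

theorem EZ.sub {F G : PowerSeries k} (hF : EZ F) (hG : EZ G) : EZ (F - G) := by
  rw [sub_eq_add_neg]
  exact hF.add hG.neg

theorem EZ.mul {F : PowerSeries k} (D : Polynomial k) (hF : EZ F) :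
    EZ ((D : PowerSeries k) * F) := by
  obtain ⟨P, rfl⟩ := hF
  exact ⟨D * P, Polynomial.coe_mul D P⟩

theorem EZ_of_ev {F : PowerSeries k} (K : ℕ) (h : ∀ m, K ≤ m → PowerSeries.coeff m F = 0) :
    EZ F := by
  refine ⟨PowerSeries.trunc K F, ?_⟩
  ext m
  rw [Polynomial.coeff_coe, PowerSeries.coeff_trunc]
  split_ifs with h1
  · rfl
  · exact (h m (by omega)).symm

theorem EZ.ev {F : PowerSeries k} (h : EZ F) :
    ∃ K : ℕ, ∀ m, K ≤ m → PowerSeries.coeff m F = 0 := by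
  obtain ⟨P, rfl⟩ := h
  refine ⟨P.natDegree + 1, fun m hm => ?_⟩
  rw [Polynomial.coeff_coe]
  exact Polynomial.coeff_eq_zero_of_natDegree_lt (by omega)

/-- the ideal of the polynomials whose product with `F` is a polynomial -/
def denom (F : PowerSeries k) : Ideal (Polynomial k) where
  carrier := {D | EZ ((D : PowerSeries k) * F)}
  add_mem' := by
    intro a b ha hb
    have := EZ.add ha hb
    rw [← add_mul, ← Polynomial.coe_add] at this
    exact this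
  zero_mem' := ⟨0, by simp⟩
  smul_mem' := by
    intro c x hx
    have := EZ.mul c hx
    rw [← mul_assoc, ← Polynomial.coe_mul] at this
    exact this

theorem mem_denom {F : PowerSeries k} {D : Polynomial k} :
    D ∈ denom F ↔ EZ ((D : PowerSeries k) * F) := Iff.rfl

end EZ

variable {k : Type*} [Field k] {R : Type*} [CommRing R] [Algebra k R] (𝒜 : ℕ → Submodule k R)
  [GradedAlgebra 𝒜] (g : R ≃ₐ[k] R)

/-- the piece of degree `m` of an ideal -/
def pc (N : Ideal R) (m : ℕ) : Submodule k R := (N.restrictScalars k) ⊓ 𝒜 m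

theorem mem_pc {N : Ideal R} {m : ℕ} {x : R} : x ∈ pc 𝒜 N m ↔ x ∈ N ∧ x ∈ 𝒜 m := Iff.rfl

/-- homogeneous and stable under `g` -/
structure GS (N : Ideal R) : Prop where
  hom : N.IsHomogeneous 𝒜
  stable : ∀ x ∈ N, g x ∈ N

/-- the trace series -/
noncomputable def HS (N : Ideal R) : PowerSeries k :=
  PowerSeries.mk fun m => trOn g.toLinearMap (pc 𝒜 N m)

theorem coeff_HS (N : Ideal R) (m : ℕ) :
    PowerSeries.coeff m (HS 𝒜 g N) = trOn g.toLinearMap (pc 𝒜 N m) :=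
  PowerSeries.coeff_mk _ _

/-- `{x ∈ N | z x ∈ N'}` -/
def kerI (z : R) (N N' : Ideal R) : Ideal R where
  carrier := {x | x ∈ N ∧ z * x ∈ N'}
  add_mem' := by
    rintro a b ⟨ha, ha'⟩ ⟨hb, hb'⟩
    exact ⟨N.add_mem ha hb, by rw [mul_add]; exact N'.add_mem ha' hb'⟩
  zero_mem' := ⟨N.zero_mem, by rw [mul_zero]; exact N'.zero_mem⟩
  smul_mem' := by
    rintro c x ⟨hx, hx'⟩
    refine ⟨N.mul_mem_left c hx, ?_⟩
    rw [smul_eq_mul, mul_left_comm]
    exact N'.mul_mem_left c hx'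

/-- `z N + N'` -/
def cokI (z : R) (N N' : Ideal R) : Ideal R where
  carrier := {y | ∃ x ∈ N, ∃ a ∈ N', y = z * x + a}
  add_mem' := by
    rintro _ _ ⟨x, hx, a, ha, rfl⟩ ⟨y, hy, b, hb, rfl⟩
    exact ⟨x + y, N.add_mem hx hy, a + b, N'.add_mem ha hb, by ring⟩
  zero_mem' := ⟨0, N.zero_mem, 0, N'.zero_mem, by simp⟩
  smul_mem' := by
    rintro c _ ⟨x, hx, a, ha, rfl⟩
    exact ⟨c * x, N.mul_mem_left c hx, c * a, N'.mul_mem_left c ha, by
      rw [smul_eq_mul]; ring⟩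

theorem mem_kerI {z : R} {N N' : Ideal R} {x : R} : x ∈ kerI z N N' ↔ x ∈ N ∧ z * x ∈ N' :=
  Iff.rfl

theorem mem_cokI {z : R} {N N' : Ideal R} {y : R} :
    y ∈ cokI z N N' ↔ ∃ x ∈ N, ∃ a ∈ N', y = z * x + a := Iff.rfl

theorem GS_kerI {z : R} {w : ℕ} {χ : k} (hz : z ∈ 𝒜 w) (hgz : g z = χ • z) (hχ : χ ≠ 0)
    {N N' : Ideal R} (hN : GS 𝒜 g N) (hN' : GS 𝒜 g N') : GS 𝒜 g (kerI z N N') := by
  constructor
  · intro i r hr
    rw [mem_kerI] at hr ⊢
    refine ⟨hN.hom i hr.1, ?_⟩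
    have := hN'.hom (w + i) hr.2
    rwa [coe_decompose_mul_add_of_left_mem 𝒜 hz] at this
  · intro x hx
    rw [mem_kerI] at hx ⊢
    refine ⟨hN.stable x hx.1, ?_⟩
    have h1 := hN'.stable _ hx.2
    rw [map_mul, hgz, smul_mul_assoc] at h1
    have h2 := N'.mul_mem_left (algebraMap k R χ⁻¹) h1
    rwa [← Algebra.smul_def, smul_smul, inv_mul_cancel₀ hχ, one_smul] at h2

theorem GS_cokI {z : R} {w : ℕ} {χ : k} (hz : z ∈ 𝒜 w) (hgz : g z = χ • z)
    {N N' : Ideal R} (hN : GS 𝒜 g N) (hN' : GS 𝒜 g N') : GS 𝒜 g (cokI z N N') := by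
  classical
  constructor
  · rintro i _ ⟨x, hx, a, ha, rfl⟩
    rw [decompose_add, DirectSum.add_apply, Submodule.coe_add,
      coe_decompose_mul_of_left_mem 𝒜 i hz]
    split_ifs with h
    · exact ⟨_, hN.hom _ hx, _, hN'.hom _ ha, rfl⟩
    · exact ⟨0, N.zero_mem, _, hN'.hom i ha, by rw [mul_zero]⟩
  · rintro _ ⟨x, hx, a, ha, rfl⟩
    refine ⟨χ • g x, ?_, g a, hN'.stable a ha, ?_⟩
    · rw [Algebra.smul_def]
      exact N.mul_mem_left _ (hN.stable x hx)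
    · rw [map_add, map_mul, hgz, smul_mul_assoc, mul_smul_comm]

theorem le_kerI {z : R} {N N' : Ideal R} (h : N' ≤ N) : N' ≤ kerI z N N' := fun x hx =>
  ⟨h hx, N'.mul_mem_left z hx⟩

theorem kerI_le {z : R} {N N' : Ideal R} : kerI z N N' ≤ N := fun _ hx => hx.1

theorem le_cokI {z : R} {N N' : Ideal R} : N' ≤ cokI z N N' := fun x hx =>
  ⟨0, N.zero_mem, x, hx, by simp⟩

theorem cokI_le {z : R} {N N' : Ideal R} (h : N' ≤ N) : cokI z N N' ≤ N := by
  rintro _ ⟨x, hx, a, ha, rfl⟩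
  exact N.add_mem (N.mul_mem_left z hx) (h ha)

section
variable [hfd : ∀ m, FiniteDimensional k (𝒜 m)]

instance (N : Ideal R) (m : ℕ) : FiniteDimensional k (pc 𝒜 N m) :=
  Submodule.finiteDimensional_of_le (inf_le_right : pc 𝒜 N m ≤ 𝒜 m)

variable {𝒜 g}

theorem pc_stable (hg : ∀ m, ∀ x ∈ 𝒜 m, g x ∈ 𝒜 m) {N : Ideal R} (hN : GS 𝒜 g N) (m : ℕ) :
    ∀ x ∈ pc 𝒜 N m, g.toLinearMap x ∈ pc 𝒜 N m := fun x hx =>
  ⟨hN.stable x hx.1, hg m x hx.2⟩

theorem HS_step (hg : ∀ m, ∀ x ∈ 𝒜 m, g x ∈ 𝒜 m) {z : R} {w : ℕ} {χ : k} (hz : z ∈ 𝒜 w)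
    (hgz : g z = χ • z) (hχ : χ ≠ 0) {N N' : Ideal R} (hN : GS 𝒜 g N) (hN' : GS 𝒜 g N') :
    HS 𝒜 g (cokI z N N') - HS 𝒜 g N' =
      PowerSeries.C χ * PowerSeries.X ^ w * (HS 𝒜 g N - HS 𝒜 g (kerI z N N')) := by
  ext m
  rw [mul_assoc, PowerSeries.coeff_C_mul, map_sub, coeff_HS, coeff_HS]
  by_cases hm : m < w
  · rw [PowerSeries.coeff_X_pow_mul', if_neg (by omega), mul_zero, sub_eq_zero]
    congr 1
    ext x
    rw [mem_pc, mem_pc]
    constructor
    · rintro ⟨⟨y, hy, a, ha, rfl⟩, hx⟩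
      refine ⟨?_, hx⟩
      have h1 : (decompose 𝒜 (z * y + a) m : R) = z * y + a := decompose_of_mem_same 𝒜 hx
      rw [decompose_add, DirectSum.add_apply, Submodule.coe_add,
        coe_decompose_mul_of_left_mem_of_not_le 𝒜 hz (by omega), zero_add] at h1
      rw [← h1]
      exact hN'.hom m ha
    · rintro ⟨hx, hx'⟩
      exact ⟨le_cokI hx, hx'⟩
  · obtain ⟨j, rfl⟩ : ∃ j, m = w + j := ⟨m - w, by omega⟩
    rw [PowerSeries.coeff_X_pow_mul', if_pos (by omega), map_sub, coeff_HS, coeff_HS,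
      show w + j - w = j by omega]
    have hK := GS_kerI 𝒜 g hz hgz hχ hN hN'
    have hC := GS_cokI 𝒜 g hz hgz hN hN'
    have h := trOn_step g.toLinearMap (LinearMap.mulLeft k z) (pc 𝒜 N j) (pc 𝒜 N' (w + j))
      (pc 𝒜 (kerI z N N') j) (pc 𝒜 (cokI z N N') (w + j)) χ (pc_stable hg hN j)
      (pc_stable hg hN' _) (pc_stable hg hK j) (pc_stable hg hC _)
      (fun x hx => ⟨le_cokI hx.1, hx.2⟩)
      (fun x hx => ⟨⟨x, hx.1, 0, N'.zero_mem, by simp⟩, SetLike.mul_mem_graded hz hx.2⟩)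
      ?_ (fun x hx => ⟨hx.1.1, hx.2⟩) ?_ ?_ ?_
    · rw [h]; ring
    · rintro y ⟨⟨x, hx, a, ha, rfl⟩, hy⟩
      have h1 : (decompose 𝒜 (z * x + a) (w + j) : R) = z * x + a := decompose_of_mem_same 𝒜 hy
      rw [decompose_add, DirectSum.add_apply, Submodule.coe_add,
        coe_decompose_mul_add_of_left_mem 𝒜 hz] at h1
      refine ⟨decompose 𝒜 x j, ⟨hN.hom j hx, (decompose 𝒜 x j).2⟩,
        decompose 𝒜 a (w + j), ⟨hN'.hom _ ha, (decompose 𝒜 a (w + j)).2⟩, ?_⟩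
      rw [LinearMap.mulLeft_apply]
      exact h1.symm
    · intro x hx
      exact ⟨hx.1.2, SetLike.mul_mem_graded hz hx.2⟩
    · intro x hx hzx
      exact ⟨⟨hx.1, hzx.1⟩, hx.2⟩
    · intro x hx
      show g (z * x) = χ • (z * g x)
      rw [map_mul, hgz, smul_mul_assoc]

omit hfd in
theorem ev_eq [IsNoetherianRing R] {N N' : Ideal R} (hN : N.IsHomogeneous 𝒜) (hle : N' ≤ N)
    (K : ℕ) (h : ∀ m, K ≤ m → ∀ x ∈ 𝒜 m, ∀ n ∈ N, x * n ∈ N') :
    ∃ M : ℕ, ∀ m, M ≤ m → pc 𝒜 N m = pc 𝒜 N' m := by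
  classical
  obtain ⟨F, hF⟩ := (IsNoetherian.noetherian N : N.FG)
  obtain ⟨D, hD⟩ : ∃ D : ℕ, ∀ a ∈ F, ∀ i, (decompose 𝒜 a i : R) ≠ 0 → i ≤ D := by
    refine ⟨F.sup fun a => (decompose 𝒜 a).support.sup id, ?_⟩
    intro a ha i hi
    have h1 : i ∈ (decompose 𝒜 a).support := by
      rw [DFinsupp.mem_support_toFun]
      intro h0
      exact hi (by rw [h0]; rfl)
    exact le_trans (Finset.le_sup (f := id) h1)
      (Finset.le_sup (f := fun a => (decompose 𝒜 a).support.sup id) ha)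
  have key : ∀ a ∈ F, ∀ c : R, ∀ m, K + D ≤ m → (decompose 𝒜 (c * a) m : R) ∈ N' := by
    intro a ha c m hm
    have haN : a ∈ N := by rw [← hF]; exact Submodule.subset_span ha
    have h1 : c * a = ∑ i ∈ (decompose 𝒜 a).support, c * (decompose 𝒜 a i : R) := by
      rw [← Finset.mul_sum, DirectSum.sum_support_decompose 𝒜 a]
    have h2 : (decompose 𝒜 (c * a) m : R) =
        ∑ i ∈ (decompose 𝒜 a).support, (decompose 𝒜 (c * (decompose 𝒜 a i : R)) m : R) := by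
      rw [h1, decompose_sum, DFinsupp.finsetSum_apply, AddSubmonoidClass.coe_finsetSum]
    rw [h2]
    apply Ideal.sum_mem
    intro i hi
    have hi' : (decompose 𝒜 a i : R) ≠ 0 := by
      intro h0
      rw [DFinsupp.mem_support_toFun] at hi
      exact hi (Subtype.ext h0)
    have hiD := hD a ha i hi'
    rw [coe_decompose_mul_of_right_mem_of_le 𝒜 (decompose 𝒜 a i).2 (by omega)]
    exact h (m - i) (by omega) _ (decompose 𝒜 c (m - i)).2 _ (hN i haN)
  refine ⟨K + D, fun m hm => ?_⟩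
  ext x
  rw [mem_pc, mem_pc]
  constructor
  · rintro ⟨hx, hxm⟩
    refine ⟨?_, hxm⟩
    rw [← decompose_of_mem_same 𝒜 hxm]
    rw [← hF] at hx
    obtain ⟨c, rfl⟩ := Submodule.mem_span_finset'.1 hx
    rw [decompose_sum, DFinsupp.finsetSum_apply, AddSubmonoidClass.coe_finsetSum]
    apply Ideal.sum_mem
    intro a _
    rw [smul_eq_mul]
    exact key a a.2 _ m hm
  · rintro ⟨hx, hxm⟩
    exact ⟨hle hx, hxm⟩

/-- the denominator of a list of homogeneous eigenvectors -/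
noncomputable def den (l : List (R × ℕ × k)) : Polynomial k :=
  (l.map fun t => (1 - Polynomial.C t.2.2 * Polynomial.X ^ t.2.1)).prod

/-- **Equivariant form of the theorem of Hilbert and Serre.** -/
theorem hilbert_serre [IsNoetherianRing R] (hg : ∀ m, ∀ x ∈ 𝒜 m, g x ∈ 𝒜 m)
    (l : List (R × ℕ × k))
    (hl : ∀ t ∈ l, t.1 ∈ 𝒜 t.2.1 ∧ g t.1 = t.2.2 • t.1 ∧ t.2.2 ≠ 0) :
    ∀ N N' : Ideal R, GS 𝒜 g N → GS 𝒜 g N' → N' ≤ N →
      (∃ K : ℕ, ∀ m, K ≤ m → ∀ x ∈ 𝒜 m, ∃ a ∈ Ideal.span {z | z ∈ l.map Prod.fst},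
        ∃ b, x = a + b ∧ ∀ n ∈ N, b * n ∈ N') →
      EZ ((den l : PowerSeries k) * (HS 𝒜 g N - HS 𝒜 g N')) := by
  induction l with
  | nil =>
    intro N N' hN hN' hle ⟨K, hK⟩
    obtain ⟨M, hM⟩ := ev_eq hN.hom hle K (by
      intro m hm x hx n hn
      obtain ⟨a, ha, b, rfl, hb⟩ := hK m hm x hx
      have h0 : a = 0 := by simpa using ha
      rw [h0, zero_add]
      exact hb n hn)
    refine EZ_of_ev M fun m hm => ?_
    simp only [den, List.map_nil, List.prod_nil, Polynomial.coe_one, one_mul]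
    rw [map_sub, coeff_HS, coeff_HS, hM m hm, sub_self]
  | cons t l ih =>
    obtain ⟨z, w, χ⟩ := t
    intro N N' hN hN' hle ⟨K, hK⟩
    obtain ⟨hz, hgz, hχ⟩ := hl (z, w, χ) (by simp)
    dsimp only at hz hgz hχ
    have hl' : ∀ t ∈ l, t.1 ∈ 𝒜 t.2.1 ∧ g t.1 = t.2.2 • t.1 ∧ t.2.2 ≠ 0 := fun t ht =>
      hl t (by simp [ht])
    have hKe := GS_kerI 𝒜 g hz hgz hχ hN hN'
    have hCo := GS_cokI 𝒜 g hz hgz hN hN'
    have hspan : ∀ a ∈ Ideal.span {y | y ∈ ((z, w, χ) :: l).map Prod.fst},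
        ∃ c, ∃ a' ∈ Ideal.span {y | y ∈ l.map Prod.fst}, a = c * z + a' := by
      intro a ha
      have : {y | y ∈ ((z, w, χ) :: l).map Prod.fst} = insert z {y | y ∈ l.map Prod.fst} := by
        ext y; simp
      rw [this] at ha
      obtain ⟨c, a', ha', h⟩ := Ideal.mem_span_insert.1 ha
      exact ⟨c, a', ha', h⟩
    have h1 := ih hl' N (cokI z N N') hN hCo (cokI_le hle) ⟨K, fun m hm x hx => by
      obtain ⟨a, ha, b, rfl, hb⟩ := hK m hm x hx
      obtain ⟨c, a', ha', rfl⟩ := hspan a ha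
      refine ⟨a', ha', c * z + b, by ring, fun n hn => ?_⟩
      rw [add_mul]
      refine (cokI z N N').add_mem ⟨c * n, N.mul_mem_left c hn, 0, N'.zero_mem, by ring⟩
        (le_cokI (hb n hn))⟩
    have h2 := ih hl' (kerI z N N') N' hKe hN' (le_kerI hle) ⟨K, fun m hm x hx => by
      obtain ⟨a, ha, b, rfl, hb⟩ := hK m hm x hx
      obtain ⟨c, a', ha', rfl⟩ := hspan a ha
      refine ⟨a', ha', c * z + b, by ring, fun n hn => ?_⟩
      rw [add_mul, mul_assoc]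
      exact N'.add_mem (N'.mul_mem_left c hn.2) (hb n hn.1)⟩
    have h3 := HS_step hg hz hgz hχ hN hN'
    have h4 : ((den ((z, w, χ) :: l) : Polynomial k) : PowerSeries k) *
        (HS 𝒜 g N - HS 𝒜 g N') = (den l : PowerSeries k) * (HS 𝒜 g N - HS 𝒜 g (cokI z N N')) -
        ((Polynomial.C χ * Polynomial.X ^ w : Polynomial k) : PowerSeries k) *
          ((den l : PowerSeries k) * (HS 𝒜 g (kerI z N N') - HS 𝒜 g N')) := by
      have h5 : ((den ((z, w, χ) :: l) : Polynomial k) : PowerSeries k) =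
          (1 - PowerSeries.C χ * PowerSeries.X ^ w) * (den l : PowerSeries k) := by
        rw [den, List.map_cons, List.prod_cons, Polynomial.coe_mul, ← den]
        congr 1
        rw [Polynomial.coe_sub, Polynomial.coe_one, Polynomial.coe_mul, Polynomial.coe_C,
          Polynomial.coe_pow, Polynomial.coe_X]
      rw [h5, Polynomial.coe_mul, Polynomial.coe_C, Polynomial.coe_pow, Polynomial.coe_X]
      linear_combination ((den l : PowerSeries k)) * h3
    rw [h4]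
    exact h1.sub (EZ.mul _ h2)

end

end Pool.Agent.E8helper38.KV
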