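import Mathlib

/-!
# Additivity of traces
-/

set_option autoImplicit false

namespace Pool.Agent.E8helper38.KV

open LinearMap Module

section trace
variable {k : Type*} [Field k] {V V' : Type*} [AddCommGroup V] [Module k V] [AddCommGroup V']
  [Module k V'] [FiniteDimensional k V] [FiniteDimensional k V']

theorem trace_quot (f : V →ₗ[k] V) (U : Submodule k V) (h : ∀ x ∈ U, f x ∈ U) :
    trace k V f = trace k U (f.restrict h) + trace k (V ⧸ U) (U.mapQ U f h) := by
  obtain ⟨s, hs⟩ := U.mkQ.exists_rightInverse_of_surjective (by rw [Submodule.range_mkQ])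
  have hs' : ∀ x, U.mkQ (s x) = x := fun x => LinearMap.congr_fun hs x
  let π : V →ₗ[k] U := LinearMap.codRestrict U (LinearMap.id - s ∘ₗ U.mkQ) (by
    intro v
    apply (Submodule.Quotient.mk_eq_zero U).1
    show U.mkQ (v - s (U.mkQ v)) = 0
    rw [map_sub, hs', sub_self])
  have hπ : ∀ v, (π v : V) = v - s (U.mkQ v) := fun v => rfl
  have hid : f = (f ∘ₗ U.subtype) ∘ₗ π + (f ∘ₗ s) ∘ₗ U.mkQ := by
    ext v
    simp only [LinearMap.add_apply, LinearMap.comp_apply, Submodule.subtype_apply, hπ, map_sub]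
    abel
  have h1 : trace k V ((f ∘ₗ U.subtype) ∘ₗ π) = trace k U (f.restrict h) := by
    rw [trace_comp_comm']
    congr 1
    ext u
    simp only [LinearMap.comp_apply, Submodule.subtype_apply, hπ, LinearMap.coe_restrict_apply]
    have : U.mkQ (f u) = 0 := by
      rw [← LinearMap.mem_ker, Submodule.ker_mkQ]; exact h u u.2
    rw [this, map_zero, sub_zero]
  have h2 : trace k V ((f ∘ₗ s) ∘ₗ U.mkQ) = trace k (V ⧸ U) (U.mapQ U f h) := by
    rw [trace_comp_comm']
    congr 1
    apply LinearMap.ext
    intro x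
    rw [LinearMap.comp_apply, LinearMap.comp_apply]
    conv_rhs => rw [← hs' x]
    rfl
  conv_lhs => rw [hid]
  rw [map_add, h1, h2]

omit [FiniteDimensional k V'] in
theorem trace_surj (T : V →ₗ[k] V') (hT : Function.Surjective T) (f : V →ₗ[k] V)
    (f' : V' →ₗ[k] V') (hf : ∀ x, T (f x) = f' (T x)) (hk : ∀ x ∈ ker T, f x ∈ ker T) :
    trace k V f = trace k (ker T) (f.restrict hk) + trace k V' f' := by
  rw [trace_quot f (ker T) hk]
  congr 1
  have := trace_conj' ((ker T).mapQ (ker T) f hk) (T.quotKerEquivOfSurjective hT)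
  rw [← this]
  congr 1
  apply LinearMap.ext
  intro y
  obtain ⟨x, rfl⟩ := hT y
  rw [LinearEquiv.conj_apply_apply]
  have h1 : (T.quotKerEquivOfSurjective hT).symm (T x) = (ker T).mkQ x := by
    rw [LinearEquiv.symm_apply_eq]
    rfl
  rw [h1]
  show T (f x) = f' (T x)
  exact hf x

end trace

section tron
variable {k : Type*} [Field k] {R : Type*} [AddCommGroup R] [Module k R]

open Classical in
/-- the trace of `g` on the stable subspace `W` -/
noncomputable def trOn (g : R →ₗ[k] R) (W : Submodule k R) : k :=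
  if h : ∀ x ∈ W, g x ∈ W then trace k W (g.restrict h) else 0

theorem trOn_eq (g : R →ₗ[k] R) (W : Submodule k R) (h : ∀ x ∈ W, g x ∈ W) :
    trOn g W = trace k W (g.restrict h) := dif_pos h

theorem trOn_step (g z : R →ₗ[k] R) (W A K C : Submodule k R) [FiniteDimensional k W]
    [FiniteDimensional k A] [FiniteDimensional k K] [FiniteDimensional k C] (χ : k)
    (hW : ∀ x ∈ W, g x ∈ W) (hA : ∀ x ∈ A, g x ∈ A) (hK : ∀ x ∈ K, g x ∈ K)
    (hC : ∀ x ∈ C, g x ∈ C) (hAC : A ≤ C) (hzC : ∀ x ∈ W, z x ∈ C)
    (hsurj : ∀ y ∈ C, ∃ x ∈ W, ∃ a ∈ A, y = z x + a)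
    (hKW : K ≤ W) (hKz : ∀ x ∈ K, z x ∈ A) (hKm : ∀ x ∈ W, z x ∈ A → x ∈ K)
    (hz : ∀ x ∈ W, g (z x) = χ • z (g x)) :
    trOn g C = χ * trOn g W + trOn g A - χ * trOn g K := by
  rw [trOn_eq g C hC, trOn_eq g W hW, trOn_eq g A hA, trOn_eq g K hK]
  let T : (W × A) →ₗ[k] C := LinearMap.codRestrict C
    ((z ∘ₗ W.subtype).coprod A.subtype) (by
      rintro ⟨x, a⟩
      rw [LinearMap.coprod_apply]
      exact C.add_mem (hzC x x.2) (hAC a.2))
  have hT : ∀ x : W, ∀ a : A, (T (x, a) : R) = z x + a := fun x a => rfl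
  have hTs : Function.Surjective T := by
    rintro ⟨y, hy⟩
    obtain ⟨x, hx, a, ha, rfl⟩ := hsurj y hy
    exact ⟨(⟨x, hx⟩, ⟨a, ha⟩), rfl⟩
  let f : (W × A) →ₗ[k] (W × A) := (χ • g.restrict hW).prodMap (g.restrict hA)
  have hf : ∀ p, T (f p) = (g.restrict hC) (T p) := by
    rintro ⟨x, a⟩
    apply Subtype.ext
    show z ((χ • g.restrict hW) x : W) + ((g.restrict hA) a : A) = g (T (x, a))
    rw [hT, map_add, hz x x.2]
    simp
  have hk : ∀ p ∈ ker T, f p ∈ ker T := by
    intro p hp
    rw [LinearMap.mem_ker] at hp ⊢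
    rw [hf, hp, map_zero]
  have h1 := trace_surj T hTs f (g.restrict hC) hf hk
  have h2 : trace k (W × A) f = χ * trace k W (g.restrict hW) + trace k A (g.restrict hA) := by
    rw [trace_prodMap', map_smul, smul_eq_mul]
  have hmem : ∀ x : K, ((⟨x, hKW x.2⟩, ⟨-z x, A.neg_mem (hKz x x.2)⟩) : W × A) ∈ ker T := by
    intro x
    rw [LinearMap.mem_ker]
    apply Subtype.ext
    rw [hT]
    simp
  let e : K ≃ₗ[k] ker T :=
    { toFun := fun x => ⟨_, hmem x⟩
      map_add' := by
        intro x y
        apply Subtype.ext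
        apply Prod.ext
        · rfl
        · apply Subtype.ext
          simp only [Submodule.coe_add, map_add, Prod.snd_add]
          abel
      map_smul' := by
        intro c x
        apply Subtype.ext
        apply Prod.ext
        · rfl
        · apply Subtype.ext
          simp
      invFun := fun p => ⟨p.1.1, by
        have h := p.2
        rw [LinearMap.mem_ker] at h
        have h' : z p.1.1 + (p.1.2 : R) = 0 := by
          have := congrArg Subtype.val h
          exact this
        apply hKm _ p.1.1.2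
        have : z p.1.1 = -(p.1.2 : R) := by
          rw [eq_neg_iff_add_eq_zero]; exact h'
        rw [this]
        exact A.neg_mem p.1.2.2⟩
      left_inv := fun x => rfl
      right_inv := by
        rintro ⟨⟨x, a⟩, hp⟩
        have h := hp
        rw [LinearMap.mem_ker] at h
        have h' : z x + (a : R) = 0 := congrArg Subtype.val h
        apply Subtype.ext
        apply Prod.ext
        · rfl
        · apply Subtype.ext
          show -z (x : R) = a
          rw [neg_eq_iff_add_eq_zero]
          exact h' }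
  have h3 : trace k (ker T) (f.restrict hk) = χ * trace k K (g.restrict hK) := by
    have h4 := trace_conj' (χ • g.restrict hK) e
    rw [map_smul (trace k K), smul_eq_mul] at h4
    rw [← h4]
    congr 1
    apply LinearMap.ext
    intro p
    obtain ⟨x, rfl⟩ := e.surjective p
    rw [LinearEquiv.conj_apply_apply, e.symm_apply_apply]
    apply Subtype.ext
    apply Prod.ext
    · rfl
    · apply Subtype.ext
      show g (-z (x : R)) = -z ((χ • g.restrict hK) x : K)
      rw [map_neg, hz _ (hKW x.2)]
      simp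
  rw [h2, h3] at h1
  linear_combination -h1

end tron

end Pool.Agent.E8helper38.KV
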